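import Mathlib

/-! The checker: tries of integers and tables indexed by monomials. -/

namespace Pool.Agent.Lib.MP_6d9b00_al.Hu

/-- Finitely supported integer functions on binary words. -/
inductive Tr : Type
  | nil : Tr
  | leaf (v : ℤ) : Tr
  | node (l r : Tr) : Tr
  | dif (s t : Tr) : Tr

namespace Tr

/-- Evaluate the head of a trie before passing it on. -/
noncomputable def frc {α : Type} (t : Tr) (k : Tr → α) : α :=
  Tr.casesOn t (k nil) (fun v => k (leaf v)) (fun a b => k (node a b)) (fun a b => k (dif a b))

/-- A leaf with an evaluated value. -/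
noncomputable def mkLeaf (v : ℤ) : Tr :=
  Int.casesOn v (fun n => Nat.casesOn n nil (fun k => leaf (Int.ofNat k.succ)))
    (fun n => Nat.casesOn n (leaf (Int.negSucc 0)) (fun k => leaf (Int.negSucc k.succ)))

/-- A node with evaluated children. -/
noncomputable def mkNode (l r : Tr) : Tr :=
  Tr.casesOn l
    (Tr.casesOn r nil (fun v => node nil (leaf v)) (fun a b => node nil (node a b))
      (fun a b => node nil (dif a b)))
    (fun v => frc r fun r' => node (leaf v) r') (fun a b => frc r fun r' => node (node a b) r')
    (fun a b => frc r fun r' => node (dif a b) r')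

/-- Negative. -/
noncomputable def neg (t : Tr) : Tr :=
  Tr.rec nil (fun v => mkLeaf (-v)) (fun _ _ a b => mkNode a b) (fun s t _ _ => dif t s) t

/-- Difference. -/
noncomputable def sub (s : Tr) : Tr → Tr :=
  Tr.rec (motive := fun _ => Tr → Tr) (fun t => neg t)
    (fun a t => Tr.casesOn t (leaf a) (fun b => mkLeaf (a - b)) (fun l r => dif (leaf a) (node l r))
      (fun l r => dif (leaf a) (dif l r)))
    (fun l r ihl ihr t => Tr.casesOn t (node l r) (fun b => dif (node l r) (leaf b))
      (fun l' r' => mkNode (ihl l') (ihr r')) (fun l' r' => dif (node l r) (dif l' r')))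
    (fun l r _ _ t => dif (dif l r) t) s

/-- Sum. -/
noncomputable def add (s : Tr) : Tr → Tr :=
  Tr.rec (motive := fun _ => Tr → Tr) (fun t => t)
    (fun a t => Tr.casesOn t (leaf a) (fun b => mkLeaf (a + b))
      (fun l r => dif (leaf a) (dif nil (node l r))) (fun l r => dif (leaf a) (dif r l)))
    (fun l r ihl ihr t => Tr.casesOn t (node l r) (fun b => dif (node l r) (dif nil (leaf b)))
      (fun l' r' => mkNode (ihl l') (ihr r')) (fun l' r' => dif (node l r) (dif r' l')))
    (fun l r _ _ t => dif t (dif r l)) s

/-- The subtrie below a letter. -/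
noncomputable def ch (b : Bool) (t : Tr) : Tr :=
  Tr.rec nil (fun _ => nil) (fun l r _ _ => Bool.casesOn b l r) (fun _ _ a b => dif a b) t

/-- The action of an iterated bracket. -/
noncomputable def brT (w : List Bool) : Tr → Tr :=
  List.rec (motive := fun _ => Tr → Tr)
    (fun t => sub (ch false (ch true t)) (ch true (ch false t)))
    (fun b _ ih t => Tr.casesOn t nil (fun _ => nil)
      (fun l r => sub (ch b (ih (node l r))) (ih (Bool.casesOn b l r)))
      (fun l r => sub (ch b (ih (dif l r))) (ih (ch b (dif l r))))) w

/-- Support check. -/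
noncomputable def sc (t : Tr) : ℕ → ℕ → Bool :=
  Tr.rec (motive := fun _ => ℕ → ℕ → Bool) (fun _ _ => true) (fun _ _ _ => true)
    (fun l r ihl ihr a b =>
      (Tr.casesOn l true (fun _ => Nat.casesOn a false fun a' => ihl a' b)
        (fun _ _ => Nat.casesOn a false fun a' => ihl a' b) (fun _ _ => false)) &&
      (Tr.casesOn r true (fun _ => Nat.casesOn b false fun b' => ihr a b')
        (fun _ _ => Nat.casesOn b false fun b' => ihr a b') (fun _ _ => false)))
    (fun _ _ _ _ _ _ => false) t

end Tr

/-- Tables of tries indexed by monomials. -/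
abbrev Tb := List (List ℕ × Tr)

/-- Insert a variable in a sorted monomial. -/
noncomputable def ins (i : ℕ) (m : List ℕ) : List ℕ :=
  List.rec [i] (fun j m ih => Bool.casesOn (Nat.ble i j) (j :: ih) (i :: j :: m)) m

/-- Comparison of monomials. -/
noncomputable def cmpL (m : List ℕ) : List ℕ → Ordering :=
  List.rec (motive := fun _ => List ℕ → Ordering)
    (fun m' => List.casesOn m' Ordering.eq fun _ _ => Ordering.lt)
    (fun i _ ih m' => List.casesOn m' Ordering.gt fun j m' =>
      Bool.casesOn (Nat.beq i j) (Bool.casesOn (Nat.ble i j) Ordering.gt Ordering.lt) (ih m')) m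

/-- Add an entry unless it is zero. -/
noncomputable def consT (m : List ℕ) (t : Tr) (tb : Tb) : Tb :=
  Tr.casesOn t tb (fun v => (m, Tr.leaf v) :: tb) (fun a b => (m, Tr.node a b) :: tb)
    (fun a b => (m, Tr.dif a b) :: tb)

/-- Sum of two tables. -/
noncomputable def merge (s : Tb) : Tb → Tb :=
  List.rec (motive := fun _ => Tb → Tb) (fun t => t)
    (fun a s ih t => Prod.casesOn a fun m x =>
      List.rec ((m, x) :: s) (fun b t iht => Prod.casesOn b fun m' y =>
        Ordering.casesOn (cmpL m m') ((m, x) :: ih ((m', y) :: t))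
          (consT m (Tr.add x y) (ih t)) ((m', y) :: iht)) t) s

/-- Apply an operation to all tries and multiply by a variable. -/
noncomputable def mapS (i : ℕ) (f : Tr → Tr) (tb : Tb) : Tb :=
  List.rec [] (fun a _ ih => Prod.casesOn a fun m x => consT (ins i m) (f x) ih) tb

/-- Evaluate a monomial before passing it on. -/
noncomputable def frcM {α : Type} (m : List ℕ) : (List ℕ → α) → α :=
  List.rec (motive := fun _ => (List ℕ → α) → α) (fun k => k [])
    (fun i _ ih k => Nat.casesOn i (ih fun m' => k (0 :: m'))
      (fun j => ih fun m' => k (j.succ :: m'))) m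

/-- Evaluate a table before passing it on. -/
noncomputable def frcT {α : Type} (tb : Tb) : (Tb → α) → α :=
  List.rec (motive := fun _ => (Tb → α) → α) (fun k => k [])
    (fun a _ ih k => Prod.casesOn a fun m x => frcM m fun m' => Tr.frc x fun x' =>
      ih fun tb' => k ((m', x') :: tb')) tb

/-- The bracket part of a step. -/
noncomputable def rest (tb : Tb) (ws : List (List Bool)) : ℕ → Tb :=
  List.rec (motive := fun _ => ℕ → Tb) (fun _ => [])
    (fun w _ ih i => merge (mapS i (Tr.brT w) tb) (ih i.succ)) ws

/-- Multiplication by the generic element. -/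
noncomputable def step (ws : List (List Bool)) (tb : Tb) : Tb :=
  merge (mapS 0 (Tr.ch false) tb) (merge (mapS 1 (Tr.ch true) tb) (rest tb ws 2))

/-- Powers of the generic element. -/
noncomputable def steps (ws : List (List Bool)) (n : ℕ) : Tb → Tb :=
  Nat.rec (motive := fun _ => Tb → Tb) (fun tb => tb)
    (fun _ ih tb => frcT (step ws tb) ih) n

/-- The expected table. -/
noncomputable def Qt (K : ℤ) (r : ℕ) : Tb :=
  Nat.rec [([], Tr.leaf K)] (fun _ ih => frcT ih fun q =>
    merge (mapS 1 (fun t => Tr.node t Tr.nil) q) (mapS 0 (fun t => Tr.node Tr.nil (Tr.neg t)) q)) r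

/-- All words of length less than `k`. -/
def words : ℕ → List (List Bool)
  | 0 => []
  | k + 1 => [] :: ((words k).map (List.cons false) ++ (words k).map (List.cons true))

/-- The check. -/
noncomputable def chk (n : ℕ) (ws : List (List Bool)) (K : ℤ) (f : Tr) : Bool :=
  List.casesOn (merge (steps ws n [([], f)]) (Qt (-K) n)) true fun _ _ => false

end Pool.Agent.Lib.MP_6d9b00_al.Hu
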