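import Pool.Agent.Lib.MP_6d9b00_al.Hu.Chk

/-! The two certificates. -/

namespace Pool.Agent.Lib.MP_6d9b00_al.Hu

open Tr

/-- The functional of bidegree (4,4). -/
def f4 : Tr :=
  (node (node (node (node (node nil (node nil (node nil (node nil (leaf (.ofNat 6)))))) (node nil
  (node nil (node (node nil (leaf (.negSucc 11))) (node (leaf (.ofNat 6)) nil))))) (node (node nil
  (node nil (node nil (node (leaf (.negSucc 5)) nil)))) (node (node nil (node (node nil (leaf
  (.ofNat 3))) (node (leaf (.negSucc 11)) nil))) (node (node (node nil (leaf (.ofNat 3))) (node
  (leaf (.ofNat 6)) nil)) (node (node (leaf (.ofNat 6)) nil) nil))))) (node (node (node (node nil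
  (node nil (node nil (leaf (.negSucc 11))))) (node (node nil (node nil (leaf (.ofNat 6)))) (node
  (node nil (leaf (.ofNat 12))) (node (leaf (.negSucc 11)) nil)))) (node (node (node nil (node nil
  (leaf (.negSucc 2)))) (node nil (node (leaf (.ofNat 8)) nil))) (node (node (node nil (leaf (.ofNat
  3))) (node (leaf (.ofNat 4)) nil)) (node (node (leaf (.negSucc 5)) nil) nil)))) (node (node (node
  (node nil (node nil (leaf (.ofNat 3)))) (node (node nil (leaf (.ofNat 3))) (node (leaf (.ofNat
  22)) nil))) (node (node (node nil (leaf (.negSucc 5))) (node (leaf (.negSucc 3)) nil)) (node (node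
  (leaf (.negSucc 11)) nil) nil))) (node (node (node (node nil (leaf (.negSucc 5))) (node (leaf
  (.negSucc 11)) nil)) (node (node (leaf (.ofNat 6)) nil) nil)) (node (node (node (leaf (.ofNat 6))
  nil) nil) nil))))) (node (node (node (node (node nil (node nil (node nil (leaf (.ofNat 6)))))
  (node (node nil (node nil (leaf (.negSucc 11)))) (node (node nil (leaf (.negSucc 5))) (node (leaf
  (.ofNat 6)) nil)))) (node (node (node nil (node nil (leaf (.negSucc 11)))) (node (node nil (leaf
  (.ofNat 16))) (node (leaf (.negSucc 5)) nil))) (node (node (node nil (leaf (.ofNat 14))) (node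
  (leaf (.negSucc 8)) nil)) (node (node (leaf (.ofNat 3)) nil) nil)))) (node (node (node (node nil
  (node nil (leaf (.ofNat 12)))) (node (node nil (leaf (.negSucc 15))) (node (leaf (.negSucc 8))
  nil))) (node (node (node nil (leaf (.ofNat 4))) nil) (node (node (leaf (.ofNat 15)) nil) nil)))
  (node (node (node (node nil (leaf (.negSucc 5))) (node (leaf (.ofNat 24)) nil)) nil) (node (node
  (node (leaf (.negSucc 23)) nil) nil) nil)))) (node (node (node (node (node nil (node nil (leaf
  (.ofNat 6)))) (node nil (node (leaf (.ofNat 3)) nil))) (node (node (node nil (leaf (.negSucc 11)))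
  (node (leaf (.ofNat 9)) nil)) nil)) (node (node (node nil (node (leaf (.ofNat 6)) nil)) (node
  (node (leaf (.negSucc 11)) nil) nil)) nil)) (node (node (node (node (node nil (leaf (.ofNat 6)))
  (node (leaf (.negSucc 23)) nil)) nil) (node (node (node (leaf (.ofNat 12)) nil) nil) nil)) (node
  (node (node (node (leaf (.ofNat 6)) nil) nil) nil) nil)))))

/-- The functional of bidegree (6,6). -/
def f6 : Tr :=
  (node (node (node (node (node (node (node nil (node nil (node nil (node nil (node nil (node nil
  (leaf (.ofNat 1620000)))))))) (node nil (node (node nil (node nil (node nil (node nil (leaf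
  (.negSucc 971999)))))) (node (node nil (node nil (node nil (leaf (.negSucc 1295999))))) (node
  (node nil (node nil (leaf (.negSucc 971999)))) (node nil (node (leaf (.ofNat 1620000)) nil)))))))
  (node (node (node nil (node nil (node nil (node nil (node nil (leaf (.negSucc 971999))))))) (node
  nil (node nil (node nil (node (node nil (leaf (.ofNat 54000))) (node (leaf (.negSucc 701999))
  nil)))))) (node (node nil (node (node nil (node nil (node nil (leaf (.negSucc 275399))))) (node
  (node nil (node nil (leaf (.ofNat 563760)))) (node (node nil (leaf (.ofNat 441720))) (node (leaf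
  (.ofNat 241920)) nil))))) (node (node (node nil (node nil (node nil (leaf (.negSucc 2122199)))))
  (node (node nil (node nil (leaf (.ofNat 1691280)))) (node (node nil (leaf (.ofNat 923400))) (node
  (leaf (.ofNat 479520)) nil)))) (node (node (node nil (node nil (leaf (.ofNat 4354560)))) (node
  (node nil (leaf (.ofNat 341280))) (node (leaf (.negSucc 1002239)) nil))) (node (node (node nil
  (leaf (.negSucc 3380399))) (node (leaf (.negSucc 2257199)) nil)) (node (node (leaf (.ofNat
  1620000)) nil) nil))))))) (node (node (node (node nil (node nil (node nil (node nil (node nil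
  (leaf (.negSucc 1295999))))))) (node nil (node nil (node (node nil (node nil (leaf (.ofNat
  311400)))) (node (node nil (leaf (.ofNat 629100))) (node (leaf (.negSucc 1264499)) nil)))))) (node
  (node (node nil (node nil (node nil (node nil (leaf (.negSucc 275399)))))) (node nil (node nil
  (node (node nil (leaf (.ofNat 81684))) (node (leaf (.ofNat 2010036)) nil))))) (node (node (node
  nil (node nil (node nil (leaf (.negSucc 636119))))) (node (node nil (node nil (leaf (.ofNat
  346296)))) (node (node nil (leaf (.ofNat 4092))) (node (leaf (.ofNat 2867748)) nil)))) (node (node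
  (node nil (node nil (leaf (.ofNat 1025544)))) (node (node nil (leaf (.ofNat 733764))) (node (leaf
  (.ofNat 1091172)) nil))) (node (node (node nil (leaf (.ofNat 695640))) (node (leaf (.negSucc
  2129255)) nil)) (node (node (leaf (.negSucc 4195199)) nil) nil)))))) (node (node (node (node nil
  (node nil (node nil (node nil (leaf (.negSucc 2122199)))))) (node (node nil (node nil (node nil
  (leaf (.negSucc 636119))))) (node (node nil (node nil (leaf (.negSucc 776591)))) (node (node nil
  (leaf (.ofNat 569376))) (node (leaf (.ofNat 6274176)) nil))))) (node (node (node nil (node nil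
  (node nil (leaf (.ofNat 1894320))))) (node (node nil (node nil (leaf (.ofNat 763032)))) (node
  (node nil (leaf (.ofNat 1109544))) (node (leaf (.ofNat 2063712)) nil)))) (node (node (node nil
  (node nil (leaf (.negSucc 252143)))) (node (node nil (leaf (.negSucc 112559))) (node (leaf
  (.negSucc 138287)) nil))) (node (node (node nil (leaf (.negSucc 783155))) (node (leaf (.negSucc
  1760579)) nil)) (node (node (leaf (.negSucc 4472519)) nil) nil))))) (node (node (node (node nil
  (node nil (node nil (leaf (.ofNat 5469120))))) (node (node nil (node nil (leaf (.ofNat 1981344))))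
  (node (node nil (leaf (.ofNat 3200784))) (node (leaf (.negSucc 1877471)) nil)))) (node (node (node
  nil (node nil (leaf (.negSucc 1735391)))) (node (node nil (leaf (.negSucc 1741463))) (node (leaf
  (.negSucc 3839927)) nil))) (node (node (node nil (leaf (.negSucc 2477219))) (node (leaf (.negSucc
  1368371)) nil)) (node (node (leaf (.negSucc 1440359)) nil) nil)))) (node (node (node (node nil
  (node nil (leaf (.negSucc 5681087)))) (node (node nil (leaf (.negSucc 4614719))) (node (leaf
  (.negSucc 6203855)) nil))) (node (node (node nil (leaf (.negSucc 959483))) (node (leaf (.ofNat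
  238068)) nil)) (node (node (leaf (.ofNat 2432280)) nil) nil))) (node (node (node (node nil (leaf
  (.ofNat 5284620))) (node (leaf (.ofNat 5657340)) nil)) (node (node (leaf (.ofNat 4435800)) nil)
  nil)) (node (node (node (leaf (.ofNat 1620000)) nil) nil) nil))))))) (node (node (node (node (node
  nil (node nil (node nil (node nil (node nil (leaf (.negSucc 971999))))))) (node nil (node (node
  nil (node nil (node nil (leaf (.ofNat 311400))))) (node (node nil (node nil (leaf (.ofNat
  162000)))) (node (node nil (leaf (.negSucc 273899))) (node (leaf (.negSucc 847499)) nil))))))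
  (node (node (node nil (node nil (node nil (node nil (leaf (.ofNat 563760)))))) (node (node nil
  (node nil (node nil (leaf (.ofNat 873690))))) (node (node nil (node nil (leaf (.ofNat 354420))))
  (node (node nil (leaf (.negSucc 350585))) (node (leaf (.ofNat 434436)) nil))))) (node (node (node
  nil (node nil (node nil (leaf (.ofNat 1495002))))) (node (node nil (node nil (leaf (.negSucc
  109697)))) (node (node nil (leaf (.negSucc 330353))) (node (leaf (.ofNat 1750986)) nil)))) (node
  (node (node nil (node nil (leaf (.negSucc 1393913)))) (node (node nil (leaf (.ofNat 92400))) (node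
  (leaf (.ofNat 1592142)) nil))) (node (node (node nil (leaf (.ofNat 1197780))) (node (leaf
  (.negSucc 519803)) nil)) (node (node (leaf (.negSucc 4030259)) nil) nil)))))) (node (node (node
  (node nil (node nil (node nil (node nil (leaf (.ofNat 1691280)))))) (node (node nil (node nil
  (node nil (leaf (.ofNat 1394724))))) (node (node nil (node nil (leaf (.ofNat 1113468)))) (node
  (node nil (leaf (.ofNat 444888))) (node (leaf (.negSucc 1029839)) nil))))) (node (node (node nil
  (node nil (node nil (leaf (.ofNat 1112508))))) (node (node nil (node nil (leaf (.ofNat 38070))))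
  (node (node nil (leaf (.negSucc 347609))) (node (leaf (.negSucc 1156175)) nil)))) (node (node
  (node nil (node nil (leaf (.negSucc 1438045)))) (node (node nil (leaf (.negSucc 640159))) (node
  (leaf (.negSucc 61513)) nil))) (node (node (node nil (leaf (.negSucc 1038341))) (node (leaf
  (.ofNat 955746)) nil)) (node (node (leaf (.ofNat 581004)) nil) nil))))) (node (node (node (node
  nil (node nil (node nil (leaf (.ofNat 932916))))) (node (node nil (node nil (leaf (.negSucc
  751939)))) (node (node nil (leaf (.negSucc 305685))) (node (leaf (.negSucc 2229185)) nil)))) (node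
  (node (node nil (node nil (leaf (.negSucc 2347735)))) (node (node nil (leaf (.negSucc 1391529)))
  (node (leaf (.negSucc 757385)) nil))) (node (node (node nil (leaf (.negSucc 565003))) (node (leaf
  (.ofNat 1101716)) nil)) (node (node (leaf (.ofNat 1795596)) nil) nil)))) (node (node (node (node
  nil (node nil (leaf (.negSucc 4649903)))) (node (node nil (leaf (.negSucc 2059061))) (node (leaf
  (.ofNat 942858)) nil))) (node (node (node nil (leaf (.ofNat 1834758))) (node (leaf (.ofNat
  535746)) nil)) (node (node (leaf (.ofNat 1041732)) nil) nil))) (node (node (node (node nil (leaf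
  (.ofNat 5352408))) (node (leaf (.ofNat 907776)) nil)) (node (node (leaf (.negSucc 268571)) nil)
  nil)) (node (node (node (leaf (.negSucc 739499)) nil) nil) nil)))))) (node (node (node (node (node
  nil (node nil (node nil (node nil (leaf (.ofNat 4354560)))))) (node (node nil (node nil (node nil
  (leaf (.ofNat 2598186))))) (node (node nil (node nil (leaf (.ofNat 2275584)))) (node (node nil
  (leaf (.ofNat 1048398))) (node (leaf (.negSucc 5708327)) nil))))) (node (node (node nil (node nil
  (node nil (leaf (.negSucc 77405))))) (node (node nil (node nil (leaf (.ofNat 134596)))) (node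
  (node nil (leaf (.negSucc 453435))) (node (leaf (.negSucc 4918961)) nil)))) (node (node (node nil
  (node nil (leaf (.ofNat 18040)))) (node (node nil (leaf (.negSucc 1673495))) (node (leaf (.negSucc
  2058399)) nil))) (node (node (node nil (leaf (.negSucc 4196465))) (node (leaf (.ofNat 2836170))
  nil)) (node (node (leaf (.ofNat 7440960)) nil) nil))))) (node (node (node (node nil (node nil
  (node nil (leaf (.negSucc 3832247))))) (node (node nil (node nil (leaf (.negSucc 2522473)))) (node
  (node nil (leaf (.negSucc 2586267))) (node (leaf (.negSucc 2130281)) nil)))) (node (node (node nil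
  (node nil (leaf (.negSucc 1325249)))) (node (node nil (leaf (.negSucc 958977))) (node (leaf
  (.ofNat 108700)) nil))) (node (node (node nil (leaf (.negSucc 478205))) (node (leaf (.ofNat
  2043702)) nil)) (node (node (leaf (.ofNat 5688864)) nil) nil)))) (node (node (node (node nil (node
  nil (leaf (.negSucc 763967)))) (node (node nil (leaf (.ofNat 647380))) (node (leaf (.ofNat
  3447968)) nil))) (node (node (node nil (leaf (.ofNat 2441078))) (node (leaf (.ofNat 746326)) nil))
  (node (node (leaf (.ofNat 808824)) nil) nil))) (node (node (node (node nil (leaf (.ofNat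
  3730374))) (node (leaf (.negSucc 972353)) nil)) (node (node (leaf (.negSucc 2777627)) nil) nil))
  (node (node (node (leaf (.negSucc 2935559)) nil) nil) nil))))) (node (node (node (node (node nil
  (node nil (node nil (leaf (.negSucc 8826371))))) (node (node nil (node nil (leaf (.negSucc
  6222545)))) (node (node nil (leaf (.negSucc 5479145))) (node (leaf (.ofNat 2501712)) nil)))) (node
  (node (node nil (node nil (leaf (.negSucc 1288181)))) (node (node nil (leaf (.negSucc 190535)))
  (node (leaf (.ofNat 2557362)) nil))) (node (node (node nil (leaf (.ofNat 3876414))) (node (leaf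
  (.ofNat 1361178)) nil)) (node (node (leaf (.ofNat 3458556)) nil) nil)))) (node (node (node (node
  nil (node nil (leaf (.ofNat 5086440)))) (node (node nil (leaf (.ofNat 4322298))) (node (leaf
  (.ofNat 2738946)) nil))) (node (node (node nil (leaf (.ofNat 2742612))) (node (leaf (.ofNat
  200340)) nil)) (node (node (leaf (.negSucc 1150115)) nil) nil))) (node (node (node (node nil (leaf
  (.ofNat 392178))) (node (leaf (.negSucc 1843253)) nil)) (node (node (leaf (.negSucc 3189923)) nil)
  nil)) (node (node (node (leaf (.negSucc 2667959)) nil) nil) nil)))) (node (node (node (node (node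
  nil (node nil (leaf (.ofNat 12011040)))) (node (node nil (leaf (.ofNat 8865384))) (node (leaf
  (.ofNat 3202464)) nil))) (node (node (node nil (leaf (.ofNat 2709996))) (node (leaf (.negSucc
  363779)) nil)) (node (node (leaf (.negSucc 7959359)) nil) nil))) (node (node (node (node nil (leaf
  (.negSucc 4714019))) (node (leaf (.negSucc 2532827)) nil)) (node (node (leaf (.negSucc 1620215))
  nil) nil)) (node (node (node (leaf (.ofNat 76920)) nil) nil) nil))) (node (node (node (node (node
  nil (leaf (.negSucc 11665559))) (node (leaf (.negSucc 2836679)) nil)) (node (node (leaf (.ofNat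
  1800540)) nil) nil)) (node (node (node (leaf (.ofNat 3026100)) nil) nil) nil)) (node (node (node
  (node (leaf (.ofNat 1620000)) nil) nil) nil) nil))))))) (node (node (node (node (node nil (node
  (node nil (node nil (node nil (node nil (leaf (.ofNat 54000)))))) (node (node nil (node nil (node
  nil (leaf (.ofNat 629100))))) (node (node nil (node nil (leaf (.negSucc 273899)))) (node (node nil
  (leaf (.negSucc 1798199))) (node (leaf (.negSucc 230999)) nil)))))) (node (node (node nil (node
  nil (node nil (node nil (leaf (.ofNat 441720)))))) (node (node nil (node nil (node nil (leaf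
  (.ofNat 1654326))))) (node (node nil (node nil (leaf (.ofNat 1222056)))) (node (node nil (leaf
  (.ofNat 54810))) (node (leaf (.negSucc 2865311)) nil))))) (node (node (node nil (node nil (node
  nil (leaf (.ofNat 4238874))))) (node (node nil (node nil (leaf (.ofNat 969102)))) (node (node nil
  (leaf (.ofNat 22926))) (node (leaf (.negSucc 3592181)) nil)))) (node (node (node nil (node nil
  (leaf (.negSucc 1048457)))) (node (node nil (leaf (.negSucc 1856447))) (node (leaf (.negSucc
  1565033)) nil))) (node (node (node nil (leaf (.negSucc 2689907))) (node (leaf (.ofNat 2134908))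
  nil)) (node (node (leaf (.ofNat 4498620)) nil) nil)))))) (node (node (node (node nil (node nil
  (node nil (node nil (leaf (.ofNat 923400)))))) (node (node nil (node nil (node nil (leaf (.ofNat
  1227258))))) (node (node nil (node nil (leaf (.ofNat 1591764)))) (node (node nil (leaf (.ofNat
  1071354))) (node (leaf (.negSucc 3656435)) nil))))) (node (node (node nil (node nil (node nil
  (leaf (.ofNat 1371651))))) (node (node nil (node nil (leaf (.ofNat 89235)))) (node (node nil (leaf
  (.negSucc 756224))) (node (leaf (.negSucc 3284348)) nil)))) (node (node (node nil (node nil (leaf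
  (.negSucc 1501863)))) (node (node nil (leaf (.negSucc 1608153))) (node (leaf (.negSucc 1375803))
  nil))) (node (node (node nil (leaf (.negSucc 2108528))) (node (leaf (.ofNat 2647947)) nil)) (node
  (node (leaf (.ofNat 6988752)) nil) nil))))) (node (node (node (node nil (node nil (node nil (leaf
  (.ofNat 841821))))) (node (node nil (node nil (leaf (.negSucc 1790958)))) (node (node nil (leaf
  (.negSucc 3989644))) (node (leaf (.negSucc 974372)) nil)))) (node (node (node nil (node nil (leaf
  (.negSucc 4421016)))) (node (node nil (leaf (.negSucc 1248640))) (node (leaf (.ofNat 2059329))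
  nil))) (node (node (node nil (leaf (.ofNat 1744865))) (node (leaf (.ofNat 2728489)) nil)) (node
  (node (leaf (.ofNat 3385191)) nil) nil)))) (node (node (node (node nil (node nil (leaf (.negSucc
  7838108)))) (node (node nil (leaf (.negSucc 419036))) (node (leaf (.ofNat 7159161)) nil))) (node
  (node (node nil (leaf (.ofNat 5711646))) (node (leaf (.ofNat 2455302)) nil)) (node (node (leaf
  (.negSucc 1633958)) nil) nil))) (node (node (node (node nil (leaf (.ofNat 9489186))) (node (leaf
  (.negSucc 20645)) nil)) (node (node (leaf (.negSucc 5767493)) nil) nil)) (node (node (node (leaf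
  (.negSucc 9091109)) nil) nil) nil)))))) (node (node (node (node (node nil (node nil (node nil
  (node nil (leaf (.ofNat 341280)))))) (node (node nil (node nil (node nil (leaf (.negSucc
  314663))))) (node (node nil (node nil (leaf (.ofNat 92400)))) (node (node nil (leaf (.ofNat
  240408))) (node (leaf (.negSucc 672803)) nil))))) (node (node (node nil (node nil (node nil (leaf
  (.negSucc 1859939))))) (node (node nil (node nil (leaf (.negSucc 1513849)))) (node (node nil (leaf
  (.negSucc 996570))) (node (leaf (.ofNat 354321)) nil)))) (node (node (node nil (node nil (leaf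
  (.negSucc 1848233)))) (node (node nil (leaf (.negSucc 610734))) (node (leaf (.ofNat 866878))
  nil))) (node (node (node nil (leaf (.ofNat 912516))) (node (leaf (.ofNat 1844055)) nil)) (node
  (node (leaf (.ofNat 4784940)) nil) nil))))) (node (node (node (node nil (node nil (node nil (leaf
  (.negSucc 3314105))))) (node (node nil (node nil (leaf (.negSucc 2265219)))) (node (node nil (leaf
  (.negSucc 986533))) (node (leaf (.ofNat 1743756)) nil)))) (node (node (node nil (node nil (leaf
  (.negSucc 1046346)))) (node (node nil (leaf (.ofNat 402935))) (node (leaf (.ofNat 1495172)) nil)))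
  (node (node (node nil (leaf (.ofNat 2029756))) (node (leaf (.ofNat 888743)) nil)) (node (node
  (leaf (.ofNat 337305)) nil) nil)))) (node (node (node (node nil (node nil (leaf (.ofNat 945261))))
  (node (node nil (leaf (.ofNat 1998601))) (node (leaf (.ofNat 1658465)) nil))) (node (node (node
  nil (leaf (.ofNat 2749633))) (node (leaf (.negSucc 140582)) nil)) (node (node (leaf (.negSucc
  2183568)) nil) nil))) (node (node (node (node nil (leaf (.ofNat 3423411))) (node (leaf (.negSucc
  1073702)) nil)) (node (node (leaf (.negSucc 3693713)) nil) nil)) (node (node (node (leaf (.negSucc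
  4589261)) nil) nil) nil))))) (node (node (node (node (node nil (node nil (node nil (leaf (.negSucc
  4614719))))) (node (node nil (node nil (leaf (.negSucc 3282227)))) (node (node nil (leaf (.negSucc
  768512))) (node (leaf (.ofNat 5446809)) nil)))) (node (node (node nil (node nil (leaf (.ofNat
  647380)))) (node (node nil (leaf (.ofNat 1299649))) (node (leaf (.ofNat 3081025)) nil))) (node
  (node (node nil (leaf (.ofNat 4056984))) (node (leaf (.negSucc 1346093)) nil)) (node (node (leaf
  (.negSucc 6404891)) nil) nil)))) (node (node (node (node nil (node nil (leaf (.ofNat 6593892))))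
  (node (node nil (leaf (.ofNat 3515630))) (node (leaf (.negSucc 1360600)) nil))) (node (node (node
  nil (leaf (.ofNat 939911))) (node (leaf (.negSucc 1638391)) nil)) (node (node (leaf (.negSucc
  3263147)) nil) nil))) (node (node (node (node nil (leaf (.negSucc 1741484))) (node (leaf (.negSucc
  2033730)) nil)) (node (node (leaf (.negSucc 1117738)) nil) nil)) (node (node (node (leaf (.ofNat
  370263)) nil) nil) nil)))) (node (node (node (node (node nil (node nil (leaf (.ofNat 13059096))))
  (node (node nil (leaf (.ofNat 4812390))) (node (leaf (.negSucc 5907020)) nil))) (node (node (node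
  nil (leaf (.negSucc 2039483))) (node (leaf (.negSucc 2768324)) nil)) (node (node (leaf (.negSucc
  1285319)) nil) nil))) (node (node (node (node nil (leaf (.negSucc 7673573))) (node (leaf (.negSucc
  1611677)) nil)) (node (node (leaf (.ofNat 2330571)) nil) nil)) (node (node (node (leaf (.ofNat
  3995865)) nil) nil) nil))) (node (node (node (node (node nil (leaf (.negSucc 13184927))) (node
  (leaf (.negSucc 446291)) nil)) (node (node (leaf (.ofNat 4644456)) nil) nil)) (node (node (node
  (leaf (.ofNat 5015844)) nil) nil) nil)) (node (node (node (node (leaf (.ofNat 2678400)) nil) nil)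
  nil) nil)))))) (node (node (node (node (node (node nil (node nil (node nil (node nil (leaf
  (.negSucc 3380399)))))) (node (node nil (node nil (node nil (leaf (.negSucc 4546499))))) (node
  (node nil (node nil (leaf (.negSucc 4044359)))) (node (node nil (leaf (.negSucc 593051))) (node
  (leaf (.ofNat 8017152)) nil))))) (node (node (node nil (node nil (node nil (leaf (.negSucc
  5763188))))) (node (node nil (node nil (leaf (.negSucc 3572042)))) (node (node nil (leaf (.negSucc
  623255))) (node (leaf (.ofNat 6622152)) nil)))) (node (node (node nil (node nil (leaf (.negSucc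
  876443)))) (node (node nil (leaf (.ofNat 1524099))) (node (leaf (.ofNat 3210708)) nil))) (node
  (node (node nil (leaf (.ofNat 6532305))) (node (leaf (.negSucc 204635)) nil)) (node (node (leaf
  (.negSucc 682535)) nil) nil))))) (node (node (node (node nil (node nil (node nil (leaf (.negSucc
  3787754))))) (node (node nil (node nil (leaf (.negSucc 827110)))) (node (node nil (leaf (.ofNat
  1744865))) (node (leaf (.ofNat 3889701)) nil)))) (node (node (node nil (node nil (leaf (.ofNat
  1968126)))) (node (node nil (leaf (.ofNat 2204494))) (node (leaf (.ofNat 436715)) nil))) (node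
  (node (node nil (leaf (.ofNat 3038005))) (node (leaf (.negSucc 1682655)) nil)) (node (node (leaf
  (.negSucc 3848543)) nil) nil)))) (node (node (node (node nil (node nil (leaf (.ofNat 7196436))))
  (node (node nil (leaf (.ofNat 3882246))) (node (leaf (.negSucc 5167331)) nil))) (node (node (node
  nil (leaf (.ofNat 199897))) (node (leaf (.negSucc 2116474)) nil)) (node (node (leaf (.negSucc
  2829871)) nil) nil))) (node (node (node (node nil (leaf (.negSucc 1896362))) (node (leaf (.negSucc
  835208)) nil)) (node (node (leaf (.negSucc 1277111)) nil) nil)) (node (node (node (leaf (.negSucc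
  1912055)) nil) nil) nil))))) (node (node (node (node (node nil (node nil (node nil (leaf (.ofNat
  2710014))))) (node (node nil (node nil (leaf (.ofNat 4106352)))) (node (node nil (leaf (.ofNat
  3702159))) (node (leaf (.negSucc 862136)) nil)))) (node (node (node nil (node nil (leaf (.ofNat
  4275827)))) (node (node nil (leaf (.ofNat 1963312))) (node (leaf (.negSucc 1845566)) nil))) (node
  (node (node nil (leaf (.negSucc 1634851))) (node (leaf (.negSucc 3579474)) nil)) (node (node (leaf
  (.negSucc 7116332)) nil) nil)))) (node (node (node (node nil (node nil (leaf (.ofNat 4402623))))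
  (node (node nil (leaf (.ofNat 1114649))) (node (leaf (.negSucc 2339359)) nil))) (node (node (node
  nil (leaf (.negSucc 2343299))) (node (leaf (.negSucc 1498012)) nil)) (node (node (leaf (.negSucc
  2012034)) nil) nil))) (node (node (node (node nil (leaf (.negSucc 4125113))) (node (leaf (.negSucc
  263825)) nil)) (node (node (leaf (.ofNat 1137669)) nil) nil)) (node (node (node (leaf (.ofNat
  2587407)) nil) nil) nil)))) (node (node (node (node (node nil (node nil (leaf (.ofNat 3758424))))
  (node (node nil (leaf (.negSucc 991055))) (node (leaf (.negSucc 2912051)) nil))) (node (node (node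
  nil (leaf (.negSucc 4147784))) (node (leaf (.negSucc 884226)) nil)) (node (node (leaf (.ofNat
  2527900)) nil) nil))) (node (node (node (node nil (leaf (.negSucc 5284562))) (node (leaf (.ofNat
  277261)) nil)) (node (node (leaf (.ofNat 3230966)) nil) nil)) (node (node (node (leaf (.ofNat
  4117152)) nil) nil) nil))) (node (node (node (node (node nil (leaf (.negSucc 5886689))) (node
  (leaf (.ofNat 117276)) nil)) (node (node (leaf (.ofNat 2659287)) nil) nil)) (node (node (node
  (leaf (.ofNat 3310107)) nil) nil) nil)) (node (node (node (node (leaf (.ofNat 1728000)) nil) nil)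
  nil) nil))))) (node (node (node (node (node (node nil (node nil (node nil (leaf (.ofNat
  13147830))))) (node (node nil (node nil (leaf (.ofNat 11118762)))) (node (node nil (leaf (.ofNat
  5295474))) (node (leaf (.negSucc 8315297)) nil)))) (node (node (node nil (node nil (leaf (.ofNat
  6613551)))) (node (node nil (leaf (.ofNat 1850769))) (node (leaf (.negSucc 5475041)) nil))) (node
  (node (node nil (leaf (.negSucc 6352181))) (node (leaf (.negSucc 5314580)) nil)) (node (node (leaf
  (.negSucc 10009142)) nil) nil)))) (node (node (node (node nil (node nil (leaf (.negSucc 394142))))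
  (node (node nil (leaf (.negSucc 1741484))) (node (leaf (.negSucc 1197638)) nil))) (node (node
  (node nil (leaf (.negSucc 4387220))) (node (leaf (.negSucc 856958)) nil)) (node (node (leaf
  (.negSucc 1371176)) nil) nil))) (node (node (node (node nil (leaf (.negSucc 7382684))) (node (leaf
  (.ofNat 264597)) nil)) (node (node (leaf (.ofNat 4784844)) nil) nil)) (node (node (node (leaf
  (.ofNat 8101728)) nil) nil) nil)))) (node (node (node (node (node nil (node nil (leaf (.negSucc
  9956159)))) (node (node nil (leaf (.negSucc 6625145))) (node (leaf (.ofNat 2791407)) nil))) (node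
  (node (node nil (leaf (.negSucc 3187706))) (node (leaf (.ofNat 2341446)) nil)) (node (node (leaf
  (.ofNat 6217548)) nil) nil))) (node (node (node (node nil (leaf (.ofNat 212805))) (node (leaf
  (.ofNat 2049081)) nil)) (node (node (leaf (.ofNat 2774409)) nil) nil)) (node (node (node (leaf
  (.ofNat 2753817)) nil) nil) nil))) (node (node (node (node (node nil (leaf (.ofNat 3407538)))
  (node (leaf (.ofNat 697188)) nil)) (node (node (leaf (.negSucc 437558)) nil) nil)) (node (node
  (node (leaf (.negSucc 679946)) nil) nil) nil)) (node (node (node (node (leaf (.negSucc 738719))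
  nil) nil) nil) nil)))) (node (node (node (node (node (node nil (node nil (leaf (.negSucc
  22149839)))) (node (node nil (leaf (.negSucc 11088071))) (node (leaf (.ofNat 4766592)) nil)))
  (node (node (node nil (leaf (.negSucc 644549))) (node (leaf (.ofNat 5369526)) nil)) (node (node
  (leaf (.ofNat 12280272)) nil) nil))) (node (node (node (node nil (leaf (.ofNat 6552822))) (node
  (leaf (.ofNat 3651174)) nil)) (node (node (leaf (.ofNat 2638140)) nil) nil)) (node (node (node
  (leaf (.negSucc 67703)) nil) nil) nil))) (node (node (node (node (node nil (leaf (.ofNat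
  10732140))) (node (leaf (.ofNat 1208808)) nil)) (node (node (leaf (.negSucc 3305573)) nil) nil))
  (node (node (node (leaf (.negSucc 5023253)) nil) nil) nil)) (node (node (node (node (leaf
  (.negSucc 3300479)) nil) nil) nil) nil))) (node (node (node (node (node (node nil (leaf (.ofNat
  14977500))) (node (leaf (.negSucc 360299)) nil)) (node (node (leaf (.negSucc 6981149)) nil) nil))
  (node (node (node (leaf (.negSucc 7268849)) nil) nil) nil)) (node (node (node (node (leaf
  (.negSucc 3607199)) nil) nil) nil) nil)) (node (node (node (node (node (leaf (.ofNat 1620000))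
  nil) nil) nil) nil) nil))))))) (node (node (node (node (node (node (node nil (node nil (node nil
  (node nil (node nil (leaf (.ofNat 1620000))))))) (node (node nil (node nil (node nil (node nil
  (leaf (.negSucc 701999)))))) (node (node nil (node nil (node nil (leaf (.negSucc 1264499)))))
  (node (node nil (node nil (leaf (.negSucc 847499)))) (node (node nil (leaf (.negSucc 230999)))
  (node (leaf (.negSucc 194999)) nil)))))) (node (node (node nil (node nil (node nil (node nil (leaf
  (.ofNat 241920)))))) (node (node nil (node nil (node nil (leaf (.ofNat 3058464))))) (node (node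
  nil (node nil (leaf (.ofNat 3230244)))) (node (node nil (leaf (.ofNat 279972))) (node (leaf
  (.negSucc 9741239)) nil))))) (node (node (node nil (node nil (node nil (leaf (.ofNat 7322604)))))
  (node (node nil (node nil (leaf (.ofNat 4212300)))) (node (node nil (leaf (.negSucc 1210103)))
  (node (leaf (.negSucc 13290671)) nil)))) (node (node (node nil (node nil (leaf (.ofNat 1630668))))
  (node (node nil (leaf (.negSucc 4866515))) (node (leaf (.negSucc 7934159)) nil))) (node (node
  (node nil (leaf (.negSucc 10854551))) (node (leaf (.ofNat 5765832)) nil)) (node (node (leaf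
  (.ofNat 23775240)) nil) nil)))))) (node (node (node (node nil (node nil (node nil (node nil (leaf
  (.ofNat 479520)))))) (node (node nil (node nil (node nil (leaf (.ofNat 3391962))))) (node (node
  nil (node nil (leaf (.ofNat 3673104)))) (node (node nil (leaf (.negSucc 446897))) (node (leaf
  (.negSucc 10145387)) nil))))) (node (node (node nil (node nil (node nil (leaf (.ofNat 2850033)))))
  (node (node nil (node nil (leaf (.ofNat 853311)))) (node (node nil (leaf (.negSucc 2235920)))
  (node (leaf (.negSucc 5927894)) nil)))) (node (node (node nil (node nil (leaf (.negSucc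
  3521057)))) (node (node nil (leaf (.negSucc 3402545))) (node (leaf (.negSucc 305417)) nil))) (node
  (node (node nil (leaf (.negSucc 5696876))) (node (leaf (.ofNat 6639051)) nil)) (node (node (leaf
  (.ofNat 15415020)) nil) nil))))) (node (node (node (node nil (node nil (node nil (leaf (.negSucc
  2663792))))) (node (node nil (node nil (leaf (.negSucc 4588148)))) (node (node nil (leaf (.negSucc
  4119656))) (node (leaf (.ofNat 4903275)) nil)))) (node (node (node nil (node nil (leaf (.negSucc
  8158742)))) (node (node nil (leaf (.negSucc 1139420))) (node (leaf (.ofNat 6953301)) nil))) (node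
  (node (node nil (leaf (.ofNat 2317059))) (node (leaf (.ofNat 5661075)) nil)) (node (node (leaf
  (.ofNat 5193393)) nil) nil)))) (node (node (node (node nil (node nil (leaf (.negSucc 12438386))))
  (node (node nil (leaf (.ofNat 1777311))) (node (leaf (.ofNat 14756337)) nil))) (node (node (node
  nil (leaf (.ofNat 11456892))) (node (leaf (.ofNat 4225716)) nil)) (node (node (leaf (.negSucc
  5902640)) nil) nil))) (node (node (node (node nil (leaf (.ofNat 19992258))) (node (leaf (.ofNat
  255186)) nil)) (node (node (leaf (.negSucc 16293581)) nil) nil)) (node (node (node (leaf (.negSucc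
  23807429)) nil) nil) nil)))))) (node (node (node (node (node nil (node nil (node nil (node nil
  (leaf (.negSucc 1002239)))))) (node (node nil (node nil (node nil (leaf (.ofNat 566958))))) (node
  (node nil (node nil (leaf (.ofNat 1067928)))) (node (node nil (leaf (.negSucc 516605))) (node
  (leaf (.negSucc 2692019)) nil))))) (node (node (node nil (node nil (node nil (leaf (.negSucc
  662501))))) (node (node nil (node nil (leaf (.negSucc 760465)))) (node (node nil (leaf (.negSucc
  1201065))) (node (leaf (.ofNat 1791438)) nil)))) (node (node (node nil (node nil (leaf (.negSucc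
  2932089)))) (node (node nil (leaf (.negSucc 356287))) (node (leaf (.ofNat 2827890)) nil))) (node
  (node (node nil (leaf (.ofNat 1113852))) (node (leaf (.ofNat 1794576)) nil)) (node (node (leaf
  (.ofNat 2580636)) nil) nil))))) (node (node (node (node nil (node nil (node nil (leaf (.negSucc
  4364141))))) (node (node nil (node nil (leaf (.negSucc 2679503)))) (node (node nil (leaf (.ofNat
  574056))) (node (leaf (.ofNat 6691194)) nil)))) (node (node (node nil (node nil (leaf (.negSucc
  2949214)))) (node (node nil (leaf (.ofNat 534113))) (node (leaf (.ofNat 4509915)) nil))) (node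
  (node (node nil (leaf (.ofNat 1747250))) (node (leaf (.ofNat 1255816)) nil)) (node (node (leaf
  (.negSucc 1953182)) nil) nil)))) (node (node (node (node nil (node nil (leaf (.negSucc 2772146))))
  (node (node nil (leaf (.ofNat 2207335))) (node (leaf (.ofNat 4730807)) nil))) (node (node (node
  nil (leaf (.ofNat 3920787))) (node (leaf (.ofNat 298073)) nil)) (node (node (leaf (.negSucc
  4680286)) nil) nil))) (node (node (node (node nil (leaf (.ofNat 6843987))) (node (leaf (.ofNat
  121851)) nil)) (node (node (leaf (.negSucc 7171391)) nil) nil)) (node (node (node (leaf (.negSucc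
  8485313)) nil) nil) nil))))) (node (node (node (node (node nil (node nil (node nil (leaf (.negSucc
  7252283))))) (node (node nil (node nil (leaf (.negSucc 2027687)))) (node (node nil (leaf (.ofNat
  5149674))) (node (leaf (.ofNat 10300518)) nil)))) (node (node (node nil (node nil (leaf (.ofNat
  2224802)))) (node (node nil (leaf (.ofNat 2969000))) (node (leaf (.ofNat 2896058)) nil))) (node
  (node (node nil (leaf (.ofNat 3220092))) (node (leaf (.negSucc 3478865)) nil)) (node (node (leaf
  (.negSucc 11038265)) nil) nil)))) (node (node (node (node nil (node nil (leaf (.ofNat 7282134))))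
  (node (node nil (leaf (.ofNat 2396266))) (node (leaf (.negSucc 2808099)) nil))) (node (node (node
  nil (leaf (.negSucc 1028824))) (node (leaf (.negSucc 3875388)) nil)) (node (node (leaf (.negSucc
  5326925)) nil) nil))) (node (node (node (node nil (leaf (.negSucc 2770280))) (node (leaf (.negSucc
  2865094)) nil)) (node (node (leaf (.negSucc 20148)) nil) nil)) (node (node (node (leaf (.ofNat
  4433325)) nil) nil) nil)))) (node (node (node (node (node nil (node nil (leaf (.ofNat 17880456))))
  (node (node nil (leaf (.ofNat 2218296))) (node (leaf (.negSucc 8940839)) nil))) (node (node (node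
  nil (leaf (.negSucc 5008907))) (node (leaf (.negSucc 7077593)) nil)) (node (node (leaf (.negSucc
  5090285)) nil) nil))) (node (node (node (node nil (leaf (.negSucc 9527621))) (node (leaf (.negSucc
  4210283)) nil)) (node (node (leaf (.ofNat 4762203)) nil) nil)) (node (node (node (leaf (.ofNat
  11241219)) nil) nil) nil))) (node (node (node (node (node nil (leaf (.negSucc 14105111))) (node
  (leaf (.negSucc 2889947)) nil)) (node (node (leaf (.ofNat 7370220)) nil) nil)) (node (node (node
  (leaf (.ofNat 10743000)) nil) nil) nil)) (node (node (node (node (leaf (.ofNat 4255200)) nil) nil)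
  nil) nil)))))) (node (node (node (node (node (node nil (node nil (node nil (node nil (leaf
  (.negSucc 2257199)))))) (node (node nil (node nil (node nil (leaf (.negSucc 3177683))))) (node
  (node nil (node nil (leaf (.negSucc 2966135)))) (node (node nil (leaf (.ofNat 38052))) (node (leaf
  (.ofNat 7862688)) nil))))) (node (node (node nil (node nil (node nil (leaf (.negSucc 3071114)))))
  (node (node nil (node nil (leaf (.negSucc 1053740)))) (node (node nil (leaf (.ofNat 2123733)))
  (node (leaf (.ofNat 7687479)) nil)))) (node (node (node nil (node nil (leaf (.ofNat 1962480))))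
  (node (node nil (leaf (.ofNat 4028280))) (node (leaf (.ofNat 2843004)) nil))) (node (node (node
  nil (leaf (.ofNat 7920681))) (node (leaf (.negSucc 5303384)) nil)) (node (node (leaf (.negSucc
  15017135)) nil) nil))))) (node (node (node (node nil (node nil (node nil (leaf (.negSucc
  2154692))))) (node (node nil (node nil (leaf (.negSucc 34080)))) (node (node nil (leaf (.ofNat
  2553751))) (node (leaf (.ofNat 5661075)) nil)))) (node (node (node nil (node nil (leaf (.ofNat
  1519488)))) (node (node nil (leaf (.ofNat 1849802))) (node (leaf (.ofNat 1430554)) nil))) (node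
  (node (node nil (leaf (.ofNat 2074211))) (node (leaf (.negSucc 3100234)) nil)) (node (node (leaf
  (.negSucc 8892671)) nil) nil)))) (node (node (node (node nil (node nil (leaf (.ofNat 2759082))))
  (node (node nil (leaf (.negSucc 297665))) (node (leaf (.negSucc 3653603)) nil))) (node (node (node
  nil (leaf (.negSucc 4453164))) (node (leaf (.negSucc 1526718)) nil)) (node (node (leaf (.negSucc
  1254879)) nil) nil))) (node (node (node (node nil (leaf (.negSucc 8984078))) (node (leaf (.negSucc
  229136)) nil)) (node (node (leaf (.ofNat 5554008)) nil) nil)) (node (node (node (leaf (.ofNat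
  9558960)) nil) nil) nil))))) (node (node (node (node (node nil (node nil (node nil (leaf (.ofNat
  762282))))) (node (node nil (node nil (leaf (.ofNat 710484)))) (node (node nil (leaf (.ofNat
  1931088))) (node (leaf (.ofNat 2653074)) nil)))) (node (node (node nil (node nil (leaf (.ofNat
  1357909)))) (node (node nil (leaf (.ofNat 208893))) (node (leaf (.negSucc 488247)) nil))) (node
  (node (node nil (leaf (.negSucc 805939))) (node (leaf (.negSucc 2225670)) nil)) (node (node (leaf
  (.negSucc 3846410)) nil) nil)))) (node (node (node (node nil (node nil (leaf (.ofNat 2384565))))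
  (node (node nil (leaf (.negSucc 677332))) (node (leaf (.negSucc 3700650)) nil))) (node (node (node
  nil (leaf (.negSucc 2459071))) (node (leaf (.negSucc 1554889)) nil)) (node (node (leaf (.negSucc
  133822)) nil) nil))) (node (node (node (node nil (leaf (.negSucc 3740135))) (node (leaf (.negSucc
  243585)) nil)) (node (node (leaf (.ofNat 3123955)) nil) nil)) (node (node (node (leaf (.ofNat
  5123511)) nil) nil) nil)))) (node (node (node (node (node nil (node nil (leaf (.ofNat 4878360))))
  (node (node nil (leaf (.negSucc 584099))) (node (leaf (.negSucc 6466010)) nil))) (node (node (node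
  nil (leaf (.negSucc 2107392))) (node (leaf (.negSucc 2047009)) nil)) (node (node (leaf (.ofNat
  2346114)) nil) nil))) (node (node (node (node nil (leaf (.negSucc 1415420))) (node (leaf (.ofNat
  234901)) nil)) (node (node (leaf (.ofNat 2172920)) nil) nil)) (node (node (node (leaf (.ofNat
  2323260)) nil) nil) nil))) (node (node (node (node (node nil (leaf (.ofNat 1175814))) (node (leaf
  (.ofNat 546372)) nil)) (node (node (leaf (.ofNat 842475)) nil) nil)) (node (node (node (leaf
  (.ofNat 471399)) nil) nil) nil)) (node (node (node (node (leaf (.negSucc 751679)) nil) nil) nil)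
  nil))))) (node (node (node (node (node (node nil (node nil (node nil (leaf (.ofNat 8278410)))))
  (node (node nil (node nil (leaf (.ofNat 2829894)))) (node (node nil (leaf (.negSucc 1069073)))
  (node (leaf (.negSucc 3938525)) nil)))) (node (node (node nil (node nil (leaf (.ofNat 512919))))
  (node (node nil (leaf (.negSucc 1597916))) (node (leaf (.negSucc 1887635)) nil))) (node (node
  (node nil (leaf (.negSucc 2844695))) (node (leaf (.negSucc 578612)) nil)) (node (node (leaf
  (.negSucc 548900)) nil) nil)))) (node (node (node (node nil (node nil (leaf (.negSucc 1231670))))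
  (node (node nil (leaf (.negSucc 2208468))) (node (leaf (.negSucc 2865094)) nil))) (node (node
  (node nil (leaf (.negSucc 1749098))) (node (leaf (.ofNat 18521)) nil)) (node (node (leaf (.ofNat
  2003437)) nil) nil))) (node (node (node (node nil (leaf (.negSucc 2880686))) (node (leaf (.ofNat
  246095)) nil)) (node (node (leaf (.ofNat 3751294)) nil) nil)) (node (node (node (leaf (.ofNat
  4139814)) nil) nil) nil)))) (node (node (node (node (node nil (node nil (leaf (.negSucc
  3930731)))) (node (node nil (leaf (.negSucc 2135891))) (node (leaf (.negSucc 2725010)) nil)))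
  (node (node (node nil (leaf (.ofNat 451999))) (node (leaf (.ofNat 846484)) nil)) (node (node (leaf
  (.ofNat 4590664)) nil) nil))) (node (node (node (node nil (leaf (.ofNat 3097509))) (node (leaf
  (.ofNat 1439865)) nil)) (node (node (leaf (.ofNat 660825)) nil) nil)) (node (node (node (leaf
  (.negSucc 1338170)) nil) nil) nil))) (node (node (node (node (node nil (leaf (.ofNat 6097506)))
  (node (leaf (.ofNat 1837896)) nil)) (node (node (leaf (.negSucc 1441508)) nil) nil)) (node (node
  (node (leaf (.negSucc 3353372)) nil) nil) nil)) (node (node (node (node (leaf (.negSucc 2478059))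
  nil) nil) nil) nil)))) (node (node (node (node (node (node nil (node nil (leaf (.negSucc
  8078819)))) (node (node nil (leaf (.negSucc 2543147))) (node (leaf (.negSucc 793091)) nil))) (node
  (node (node nil (leaf (.ofNat 1165704))) (node (leaf (.ofNat 2643228)) nil)) (node (node (leaf
  (.ofNat 6160908)) nil) nil))) (node (node (node (node nil (leaf (.ofNat 3842472))) (node (leaf
  (.ofNat 2886324)) nil)) (node (node (leaf (.ofNat 311778)) nil) nil)) (node (node (node (leaf
  (.negSucc 3467753)) nil) nil) nil))) (node (node (node (node (node nil (leaf (.ofNat 4354092)))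
  (node (leaf (.ofNat 2782620)) nil)) (node (node (leaf (.negSucc 1448855)) nil) nil)) (node (node
  (node (leaf (.negSucc 3947435)) nil) nil) nil)) (node (node (node (node (leaf (.negSucc 2248019))
  nil) nil) nil) nil))) (node (node (node (node (node (node nil (leaf (.negSucc 360299))) (node
  (leaf (.ofNat 1706940)) nil)) (node (node (leaf (.negSucc 554189)) nil) nil)) (node (node (node
  (leaf (.negSucc 2015009)) nil) nil) nil)) (node (node (node (node (leaf (.negSucc 1018439)) nil)
  nil) nil) nil)) (node (node (node (node (node (leaf (.ofNat 621000)) nil) nil) nil) nil) nil))))))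
  (node (node (node (node (node (node (node nil (node nil (node nil (node nil (leaf (.ofNat
  1620000)))))) (node (node nil (node nil (node nil (leaf (.negSucc 4195199))))) (node (node nil
  (node nil (leaf (.negSucc 5777639)))) (node (node nil (leaf (.negSucc 743519))) (node (leaf
  (.ofNat 13290960)) nil))))) (node (node (node nil (node nil (node nil (leaf (.negSucc 4472519)))))
  (node (node nil (node nil (leaf (.negSucc 467423)))) (node (node nil (leaf (.ofNat 5590848)))
  (node (leaf (.ofNat 10172880)) nil)))) (node (node (node nil (node nil (leaf (.ofNat 7440960))))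
  (node (node nil (leaf (.ofNat 10027080))) (node (leaf (.ofNat 3629064)) nil))) (node (node (node
  nil (leaf (.ofNat 13995456))) (node (leaf (.negSucc 10823423)) nil)) (node (node (leaf (.negSucc
  37667519)) nil) nil))))) (node (node (node (node nil (node nil (node nil (leaf (.negSucc
  1440359))))) (node (node nil (node nil (leaf (.ofNat 1970334)))) (node (node nil (leaf (.ofNat
  3996774))) (node (leaf (.ofNat 4407072)) nil)))) (node (node (node nil (node nil (leaf (.ofNat
  5514126)))) (node (node nil (leaf (.ofNat 2521530))) (node (leaf (.negSucc 293171)) nil))) (node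
  (node (node nil (leaf (.ofNat 694644))) (node (leaf (.negSucc 6621077)) nil)) (node (node (leaf
  (.negSucc 14141429)) nil) nil)))) (node (node (node (node nil (node nil (leaf (.ofNat 4506984))))
  (node (node nil (leaf (.negSucc 5006987))) (node (leaf (.negSucc 7718243)) nil))) (node (node
  (node nil (leaf (.negSucc 12445841))) (node (leaf (.negSucc 2710613)) nil)) (node (node (leaf
  (.ofNat 4260612)) nil) nil))) (node (node (node (node nil (leaf (.negSucc 24949241))) (node (leaf
  (.negSucc 2907863)) nil)) (node (node (leaf (.ofNat 18640926)) nil) nil)) (node (node (node (leaf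
  (.ofNat 30101832)) nil) nil) nil))))) (node (node (node (node (node nil (node nil (node nil (leaf
  (.ofNat 2432280))))) (node (node nil (node nil (leaf (.ofNat 2264898)))) (node (node nil (leaf
  (.negSucc 148685))) (node (leaf (.negSucc 3019463)) nil)))) (node (node (node nil (node nil (leaf
  (.ofNat 1507776)))) (node (node nil (leaf (.negSucc 1571985))) (node (leaf (.negSucc 2845537))
  nil))) (node (node (node nil (leaf (.negSucc 4053037))) (node (leaf (.negSucc 1254879)) nil))
  (node (node (leaf (.ofNat 3736398)) nil) nil)))) (node (node (node (node nil (node nil (leaf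
  (.negSucc 1324853)))) (node (node nil (leaf (.negSucc 3787361))) (node (leaf (.negSucc 2880593))
  nil))) (node (node (node nil (leaf (.negSucc 5069949))) (node (leaf (.negSucc 221191)) nil)) (node
  (node (leaf (.ofNat 5596380)) nil) nil))) (node (node (node (node nil (leaf (.negSucc 7399637)))
  (node (leaf (.ofNat 168688)) nil)) (node (node (leaf (.ofNat 6781184)) nil) nil)) (node (node
  (node (leaf (.ofNat 9469578)) nil) nil) nil)))) (node (node (node (node (node nil (node nil (leaf
  (.negSucc 7959359)))) (node (node nil (leaf (.negSucc 2159009))) (node (leaf (.negSucc 1770263))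
  nil))) (node (node (node nil (leaf (.ofNat 1654210))) (node (leaf (.ofNat 2171376)) nil)) (node
  (node (leaf (.ofNat 6275120)) nil) nil))) (node (node (node (node nil (leaf (.ofNat 7615452)))
  (node (leaf (.ofNat 3542236)) nil)) (node (node (leaf (.negSucc 2177955)) nil) nil)) (node (node
  (node (leaf (.negSucc 5042603)) nil) nil) nil))) (node (node (node (node (node nil (leaf (.ofNat
  19619268))) (node (leaf (.ofNat 4064052)) nil)) (node (node (leaf (.negSucc 6939293)) nil) nil))
  (node (node (node (leaf (.negSucc 11061065)) nil) nil) nil)) (node (node (node (node (leaf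
  (.negSucc 6212159)) nil) nil) nil) nil))))) (node (node (node (node (node (node nil (node nil
  (node nil (leaf (.ofNat 4435800))))) (node (node nil (node nil (leaf (.ofNat 1129332)))) (node
  (node nil (leaf (.negSucc 3845375))) (node (leaf (.negSucc 10527227)) nil)))) (node (node (node
  nil (node nil (leaf (.negSucc 1554461)))) (node (node nil (leaf (.negSucc 3518975))) (node (leaf
  (.negSucc 4899797)) nil))) (node (node (node nil (leaf (.negSucc 4247657))) (node (leaf (.ofNat
  4330842)) nil)) (node (node (leaf (.ofNat 17068284)) nil) nil)))) (node (node (node (node nil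
  (node nil (leaf (.negSucc 3015185)))) (node (node nil (leaf (.negSucc 2253535))) (node (leaf
  (.negSucc 282255)) nil))) (node (node (node nil (leaf (.negSucc 784448))) (node (leaf (.ofNat
  2250265)) nil)) (node (node (leaf (.ofNat 6606446)) nil) nil))) (node (node (node (node nil (leaf
  (.ofNat 2425881))) (node (leaf (.ofNat 2266021)) nil)) (node (node (leaf (.negSucc 1074744)) nil)
  nil)) (node (node (node (leaf (.negSucc 6129200)) nil) nil) nil)))) (node (node (node (node (node
  nil (node nil (leaf (.negSucc 2668643)))) (node (node nil (leaf (.ofNat 321084))) (node (leaf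
  (.ofNat 2228502)) nil))) (node (node (node nil (leaf (.ofNat 2532014))) (node (leaf (.ofNat
  1299230)) nil)) (node (node (leaf (.negSucc 605313)) nil) nil))) (node (node (node (node nil (leaf
  (.ofNat 4783896))) (node (leaf (.ofNat 1097670)) nil)) (node (node (leaf (.negSucc 2565404)) nil)
  nil)) (node (node (node (leaf (.negSucc 5076512)) nil) nil) nil))) (node (node (node (node (node
  nil (leaf (.ofNat 7880280))) (node (leaf (.ofNat 835992)) nil)) (node (node (leaf (.negSucc
  2843897)) nil) nil)) (node (node (node (leaf (.negSucc 3621953)) nil) nil) nil)) (node (node (node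
  (node (leaf (.negSucc 1976939)) nil) nil) nil) nil)))) (node (node (node (node (node (node nil
  (node nil (leaf (.ofNat 53160)))) (node (node nil (leaf (.ofNat 2198124))) (node (leaf (.ofNat
  2128080)) nil))) (node (node (node nil (leaf (.ofNat 2135073))) (node (leaf (.ofNat 842475)) nil))
  (node (node (leaf (.negSucc 3269795)) nil) nil))) (node (node (node (node nil (leaf (.ofNat
  1484559))) (node (leaf (.ofNat 480609)) nil)) (node (node (leaf (.negSucc 1620731)) nil) nil))
  (node (node (node (leaf (.negSucc 3004031)) nil) nil) nil))) (node (node (node (node (node nil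
  (leaf (.negSucc 509765))) (node (leaf (.ofNat 123786)) nil)) (node (node (leaf (.negSucc 190934))
  nil) nil)) (node (node (node (leaf (.ofNat 199155)) nil) nil) nil)) (node (node (node (node (leaf
  (.ofNat 570240)) nil) nil) nil) nil))) (node (node (node (node (node (node nil (leaf (.negSucc
  6981149))) (node (leaf (.negSucc 554189)) nil)) (node (node (leaf (.ofNat 2511675)) nil) nil))
  (node (node (node (leaf (.ofNat 2718405)) nil) nil) nil)) (node (node (node (node (leaf (.ofNat
  1160460)) nil) nil) nil) nil)) (node (node (node (node (node (leaf (.negSucc 475199)) nil) nil)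
  nil) nil) nil))))) (node (node (node (node (node (node (node nil (node nil (node nil (leaf (.ofNat
  1620000))))) (node (node nil (node nil (leaf (.negSucc 739499)))) (node (node nil (leaf (.negSucc
  6470039))) (node (leaf (.negSucc 15944219)) nil)))) (node (node (node nil (node nil (leaf
  (.negSucc 2935559)))) (node (node nil (leaf (.negSucc 4065047))) (node (leaf (.negSucc 4815815))
  nil))) (node (node (node nil (leaf (.negSucc 2960483))) (node (leaf (.ofNat 9558960)) nil)) (node
  (node (leaf (.ofNat 26956548)) nil) nil)))) (node (node (node (node nil (node nil (leaf (.negSucc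
  2667959)))) (node (node nil (leaf (.negSucc 416057))) (node (leaf (.ofNat 3122790)) nil))) (node
  (node (node nil (leaf (.ofNat 2063193))) (node (leaf (.ofNat 3550869)) nil)) (node (node (leaf
  (.ofNat 7372722)) nil) nil))) (node (node (node (node nil (leaf (.ofNat 7315407))) (node (leaf
  (.ofNat 1780851)) nil)) (node (node (leaf (.negSucc 7177628)) nil) nil)) (node (node (node (leaf
  (.negSucc 16769024)) nil) nil) nil)))) (node (node (node (node (node nil (node nil (leaf (.ofNat
  76920)))) (node (node nil (leaf (.ofNat 2685330))) (node (leaf (.ofNat 6261186)) nil))) (node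
  (node (node nil (leaf (.ofNat 3592938))) (node (leaf (.ofNat 575880)) nil)) (node (node (leaf
  (.negSucc 4867865)) nil) nil))) (node (node (node (node nil (leaf (.ofNat 3540138))) (node (leaf
  (.negSucc 1076063)) nil)) (node (node (leaf (.negSucc 4727036)) nil) nil)) (node (node (node (leaf
  (.negSucc 6165584)) nil) nil) nil))) (node (node (node (node (node nil (leaf (.ofNat 980724)))
  (node (leaf (.ofNat 201744)) nil)) (node (node (leaf (.negSucc 732437)) nil) nil)) (node (node
  (node (leaf (.negSucc 132029)) nil) nil) nil)) (node (node (node (node (leaf (.ofNat 1406160))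
  nil) nil) nil) nil)))) (node (node (node (node (node (node nil (node nil (leaf (.ofNat 3026100))))
  (node (node nil (leaf (.ofNat 3967416))) (node (leaf (.ofNat 5500860)) nil))) (node (node (node
  nil (leaf (.ofNat 2785893))) (node (leaf (.negSucc 577028)) nil)) (node (node (leaf (.negSucc
  9488423)) nil) nil))) (node (node (node (node nil (leaf (.negSucc 155732))) (node (leaf (.negSucc
  2130206)) nil)) (node (node (leaf (.negSucc 2573525)) nil) nil)) (node (node (node (leaf (.negSucc
  132029)) nil) nil) nil))) (node (node (node (node (node nil (leaf (.negSucc 3974825))) (node (leaf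
  (.negSucc 2374793)) nil)) (node (node (leaf (.ofNat 1072845)) nil) nil)) (node (node (node (leaf
  (.ofNat 3622995)) nil) nil) nil)) (node (node (node (node (leaf (.ofNat 3050460)) nil) nil) nil)
  nil))) (node (node (node (node (node (node nil (leaf (.negSucc 7268849))) (node (leaf (.negSucc
  2015009)) nil)) (node (node (leaf (.ofNat 2718405)) nil) nil)) (node (node (node (leaf (.ofNat
  4166235)) nil) nil) nil)) (node (node (node (node (leaf (.ofNat 2075220)) nil) nil) nil) nil))
  (node (node (node (node (node (leaf (.negSucc 1295999)) nil) nil) nil) nil) nil)))) (node (node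
  (node (node (node (node (node nil (node nil (leaf (.ofNat 1620000)))) (node (node nil (leaf
  (.ofNat 2678400))) (node (leaf (.ofNat 4255200)) nil))) (node (node (node nil (leaf (.ofNat
  1728000))) (node (leaf (.negSucc 751679)) nil)) (node (node (leaf (.negSucc 6212159)) nil) nil)))
  (node (node (node (node nil (leaf (.negSucc 738719))) (node (leaf (.negSucc 2478059)) nil)) (node
  (node (leaf (.negSucc 1976939)) nil) nil)) (node (node (node (leaf (.ofNat 1406160)) nil) nil)
  nil))) (node (node (node (node (node nil (leaf (.negSucc 3300479))) (node (leaf (.negSucc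
  2248019)) nil)) (node (node (leaf (.ofNat 570240)) nil) nil)) (node (node (node (leaf (.ofNat
  3050460)) nil) nil) nil)) (node (node (node (node (leaf (.ofNat 4017600)) nil) nil) nil) nil)))
  (node (node (node (node (node (node nil (leaf (.negSucc 3607199))) (node (leaf (.negSucc 1018439))
  nil)) (node (node (leaf (.ofNat 1160460)) nil) nil)) (node (node (node (leaf (.ofNat 2075220))
  nil) nil) nil)) (node (node (node (node (leaf (.ofNat 1238760)) nil) nil) nil) nil)) (node (node
  (node (node (node (leaf (.negSucc 1468799)) nil) nil) nil) nil) nil))) (node (node (node (node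
  (node (node (node nil (leaf (.ofNat 1620000))) (node (leaf (.ofNat 621000)) nil)) (node (node
  (leaf (.negSucc 475199)) nil) nil)) (node (node (node (leaf (.negSucc 1295999)) nil) nil) nil))
  (node (node (node (node (leaf (.negSucc 1468799)) nil) nil) nil) nil)) (node (node (node (node
  (node (leaf (.negSucc 620999)) nil) nil) nil) nil) nil)) (node (node (node (node (node (node (leaf
  (.ofNat 1620000)) nil) nil) nil) nil) nil) nil)))))))

theorem sc4 : sc f4 4 4 = true := by decide +kernel

theorem sc6 : sc f6 6 6 = true := by decide +kernel

theorem chk4 : chk 4 (words 4) 6 f4 = true := by decide +kernel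

theorem chk6 : chk 6 (words 6) 1620000 f6 = true := by decide +kernel

end Pool.Agent.Lib.MP_6d9b00_al.Hu
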