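import Mathlib

/-! Definitions for the construction of groups with a small Hughes subgroup. -/

namespace Pool.Agent.Lib.MP_6d9b00_al.Hu

open Polynomial

/-- Exponent sums of a word in two free generators. -/
def pz : FreeGroup Bool →* Multiplicative (ℤ × ℤ) :=
  FreeGroup.lift fun b => Multiplicative.ofAdd (if b = true then (0, 1) else (1, 0))

/-- The determinant of the exponent sums. -/
def Dl (h g : FreeGroup Bool) : ℤ :=
  (pz h).toAdd.1 * (pz g).toAdd.2 - (pz h).toAdd.2 * (pz g).toAdd.1

/-- There is an integer function on the free group which is polynomial of degree at most `n` along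
all cosets of cyclic subgroups, with top coefficient `κ` times the `n`-th power of the determinant,
and which has finitely many translates modulo every `p`. -/
def Sym (n : ℕ) (κ : ℤ) : Prop :=
  ∃ μ : FreeGroup Bool → ℤ,
    (∀ h g, ∃ q : ℚ[X], q.natDegree ≤ n ∧ q.coeff n = ((κ * Dl h g ^ n : ℤ) : ℚ) ∧
      ∀ k : ℕ, (μ (h * g ^ k) : ℚ) = q.eval (k : ℚ)) ∧
    ∀ p : ℕ, 0 < p → ∃ (Ω : Type) (_ : Finite Ω) (Θ : FreeGroup Bool → Ω),
      ∀ g g', Θ g = Θ g' → ∀ u, (μ (u * g) : ZMod p) = (μ (u * g') : ZMod p)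

/-- A finite `p`-group with a normal subgroup with quotient `Q`, not of exponent `p`, outside of
which all elements have order `p`. -/
def Anti (p : ℕ) (Q : Type) [Group Q] : Prop :=
  ∃ (P : Type) (_ : Group P) (_ : Finite P), IsPGroup p P ∧ ∃ (T : Subgroup P) (_ : T.Normal),
    Nonempty (P ⧸ T ≃* Q) ∧ (∀ g : P, g ∉ T → orderOf g = p) ∧ ∃ t ∈ T, t ^ p ≠ 1

end Pool.Agent.Lib.MP_6d9b00_al.Hu
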