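import Pool.Agent.Lib.MP_6d9b00_al.Hu.Defs

/-! Finite differences and products of symbols. -/

namespace Pool.Agent.Lib.MP_6d9b00_al.Hu

open Polynomial

theorem dif_key (n : ℕ) (f : ℕ → ℤ) (q : ℚ[X]) (hq : q.natDegree ≤ n) (c : ℤ)
    (hc : q.coeff n = (c : ℚ)) (hf : ∀ k : ℕ, (f k : ℚ) = q.eval (k : ℚ)) :
    ∑ k ∈ Finset.range (n + 1), (-1) ^ (n - k) * (n.choose k : ℤ) * f k = c * n.factorial := by
  have h := fwdDiff_iter_eq_sum_shift (1 : ℚ) q.eval n 0
  have h2 : (fwdDiff (1 : ℚ))^[n] q.eval 0 = c * n.factorial := by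
    rcases hq.eq_or_lt with rfl | h1
    · rw [q.fwdDiff_iter_degree_eq_factorial, leadingCoeff, hc]; simp
    · rw [Polynomial.fwdDiff_iter_eq_zero_of_degree_lt h1, ← hc, coeff_eq_zero_of_natDegree_lt h1]
      simp
  rw [h2] at h
  have h3 : ((∑ k ∈ Finset.range (n + 1), (-1) ^ (n - k) * (n.choose k : ℤ) * f k : ℤ) : ℚ)
      = ((c * n.factorial : ℤ) : ℚ) := by
    push_cast
    rw [h]
    exact Finset.sum_congr rfl fun k _ => by simp [hf]
  exact_mod_cast h3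

theorem dif_choose (n : ℕ) [hp : Fact (n + 1).Prime] (k : ℕ) (hk : k ≤ n) :
    (n.choose k : ZMod (n + 1)) = (-1) ^ k := by
  induction k with
  | zero => simp
  | succ k ih =>
    have h := (ZMod.natCast_eq_zero_iff _ _).2 (hp.out.dvd_choose_self k.succ_ne_zero (by omega))
    rw [Nat.choose_succ_succ, Nat.cast_add, ih (by omega)] at h
    linear_combination h

theorem dif_sum (p : ℕ) [Fact p.Prime] (f : ℕ → ℤ) (q : ℚ[X]) (hq : q.natDegree ≤ p - 1) (c : ℤ)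
    (hc : q.coeff (p - 1) = (c : ℚ)) (hf : ∀ k : ℕ, (f k : ℚ) = q.eval (k : ℚ)) :
    ∑ k ∈ Finset.range p, (f k : ZMod p) = -(c : ZMod p) := by
  have hw := ZMod.wilsons_lemma p
  have hn := neg_one_pow_char (ZMod p) p
  have h := congrArg (Int.cast : ℤ → ZMod p) (dif_key _ f q hq c hc hf)
  obtain ⟨n, rfl⟩ : ∃ n, p = n + 1 := ⟨p - 1, by have := (Fact.out : p.Prime).pos; omega⟩
  push_cast at h
  rw [Nat.add_sub_cancel] at hw
  rw [hw, mul_neg_one] at h
  rw [← h]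
  refine Finset.sum_congr rfl fun k hk => ?_
  have hk' : k ≤ n := Nat.lt_succ_iff.1 (Finset.mem_range.1 hk)
  rw [dif_choose n k hk', ← pow_add, Nat.sub_add_cancel hk']
  linear_combination (f k : ZMod (n + 1)) * hn

theorem dif_per (p : ℕ) [Fact p.Prime] (f : ℕ → ℤ) (q : ℚ[X]) (hq : q.natDegree ≤ p - 1)
    (hf : ∀ k : ℕ, (f k : ℚ) = q.eval (k : ℚ)) : (f p : ZMod p) = (f 0 : ZMod p) := by
  have hp : p.Prime := Fact.out
  have hn := neg_one_pow_char (ZMod p) p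
  have h := congrArg (Int.cast : ℤ → ZMod p) (dif_key p f q (by omega) 0
    (by rw [coeff_eq_zero_of_natDegree_lt (by have := hp.pos; omega)]; simp) hf)
  push_cast at h
  rw [Finset.sum_range_succ, Finset.sum_eq_single_of_mem 0 (Finset.mem_range.2 hp.pos)
    fun k hk h0 => by
      rw [(ZMod.natCast_eq_zero_iff _ _).2 (hp.dvd_choose_self h0 (Finset.mem_range.1 hk))]
      ring] at h
  simp only [Nat.sub_zero, hn, Nat.choose_zero_right, Nat.sub_self, Nat.choose_self] at h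
  push_cast at h
  linear_combination h

theorem sym_zero : Sym 0 1 :=
  ⟨fun _ => 1, fun _ _ => ⟨1, by simp, by simp, by simp⟩,
    fun _ _ => ⟨Unit, inferInstance, fun _ => (), fun _ _ _ _ => rfl⟩⟩

theorem Sym.mul {n m : ℕ} {κ κ' : ℤ} (h : Sym n κ) (h' : Sym m κ') : Sym (n + m) (κ * κ') := by
  obtain ⟨μ, h1, h2⟩ := h
  obtain ⟨μ', h1', h2'⟩ := h'
  refine ⟨fun g => μ g * μ' g, fun h g => ?_, fun p hp => ?_⟩
  · obtain ⟨q, a1, a2, a3⟩ := h1 h g
    obtain ⟨q', b1, b2, b3⟩ := h1' h g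
    refine ⟨q * q', natDegree_mul_le.trans (add_le_add a1 b1), ?_, fun k => ?_⟩
    · rw [coeff_mul_add_eq_of_natDegree_le a1 b1, a2, b2]
      push_cast
      ring
    · rw [Int.cast_mul, a3, b3, eval_mul]
  · obtain ⟨Ω, _, Θ, a⟩ := h2 p hp
    obtain ⟨Ω', _, Θ', b⟩ := h2' p hp
    refine ⟨Ω × Ω', inferInstance, fun g => (Θ g, Θ' g), fun g g' e u => ?_⟩
    rw [Int.cast_mul, Int.cast_mul, a g g' (congrArg Prod.fst e), b g g' (congrArg Prod.snd e)]

theorem Sym.pow {n : ℕ} {κ : ℤ} (h : Sym n κ) (i : ℕ) : Sym (n * i) (κ ^ i) := by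
  induction i with
  | zero => simpa using sym_zero
  | succ i ih => rw [mul_add, mul_one, pow_succ]; exact ih.mul h

end Pool.Agent.Lib.MP_6d9b00_al.Hu
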