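import Pool.Agent.Lib.MP_6d9b00_al.Hu.Defs

/-! From a function with constant coset sums to the group. -/

namespace Pool.Agent.Lib.MP_6d9b00_al.Hu

/-- Functions whose sums over the cosets of the cyclic subgroups outside the kernel vanish. -/
def grp_M (p : ℕ) {G Q : Type} [Group G] [Group Q] (π : G →* Q) :
    AddSubgroup (G → ZMod (p ^ 2)) where
  carrier := {f | ∀ g, π g ≠ 1 → ∀ u, ∑ k ∈ Finset.range p, f (u * g ^ k) = 0}
  zero_mem' := by
    intro g _ u
    simp
  add_mem' := by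
    intro a b ha hb g hg u
    simp only [Pi.add_apply, Finset.sum_add_distrib, ha g hg u, hb g hg u, add_zero]
  neg_mem' := by
    intro a ha g hg u
    simp only [Pi.neg_apply, Finset.sum_neg_distrib, ha g hg u, neg_zero]

theorem grp_shift_mem (p : ℕ) {G Q : Type} [Group G] [Group Q] (π : G →* Q) (v : G)
    (f : G → ZMod (p ^ 2)) (hf : f ∈ grp_M p π) : (fun u => f (u * v)) ∈ grp_M p π := by
  intro g hg u
  have h1 : π (v⁻¹ * g * v) ≠ 1 := by
    intro h
    apply hg
    rw [map_mul, map_mul, map_inv] at h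
    have h2 : π g = π v * ((π v)⁻¹ * π g * π v) * (π v)⁻¹ := by group
    rw [h2, h]
    simp
  have h2 := hf (v⁻¹ * g * v) h1 (u * v)
  rw [← h2]
  refine Finset.sum_congr rfl fun k _ => ?_
  have h3 : (v⁻¹ * g * v) ^ k = v⁻¹ * g ^ k * v := by
    have := conj_pow (i := k) (a := v⁻¹) (b := g)
    simpa using this
  rw [h3]
  group

/-- Right translation as an automorphism. -/
def grp_aut (p : ℕ) {G Q : Type} [Group G] [Group Q] (π : G →* Q) (v : G) :
    MulAut (Multiplicative (grp_M p π)) where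
  toFun m := Multiplicative.ofAdd ⟨fun u => m.toAdd.1 (u * v), grp_shift_mem p π v _ m.toAdd.2⟩
  invFun m := Multiplicative.ofAdd ⟨fun u => m.toAdd.1 (u * v⁻¹), grp_shift_mem p π v⁻¹ _ m.toAdd.2⟩
  left_inv m := by
    apply Multiplicative.toAdd.injective
    apply Subtype.ext
    funext u
    simp
  right_inv m := by
    apply Multiplicative.toAdd.injective
    apply Subtype.ext
    funext u
    simp
  map_mul' a b := rfl

/-- The translation action. -/
def grp_act (p : ℕ) {G Q : Type} [Group G] [Group Q] (π : G →* Q) :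
    G →* MulAut (Multiplicative (grp_M p π)) where
  toFun := grp_aut p π
  map_one' := by
    ext m u
    simp [grp_aut]
  map_mul' a b := by
    ext m u
    simp [grp_aut, mul_assoc]

theorem grp_pow (p : ℕ) {G Q : Type} [Group G] [Group Q] (π : G →* Q)
    (x : SemidirectProduct (Multiplicative (grp_M p π)) G (grp_act p π)) (k : ℕ) :
    (x ^ k).right = x.right ^ k ∧
      ∀ u, (x ^ k).left.toAdd.1 u = ∑ i ∈ Finset.range k, x.left.toAdd.1 (u * x.right ^ i) := by
  induction k with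
  | zero => exact ⟨by simp, fun u => by simp⟩
  | succ k ih =>
    refine ⟨by rw [pow_succ x, SemidirectProduct.mul_right, ih.1, pow_succ x.right], fun u => ?_⟩
    rw [pow_succ x, SemidirectProduct.mul_left, Finset.sum_range_succ, ← ih.2 u, ih.1]
    rfl

theorem grp_ext (p : ℕ) {G Q : Type} [Group G] [Group Q] (π : G →* Q)
    (x : SemidirectProduct (Multiplicative (grp_M p π)) G (grp_act p π))
    (h1 : x.right = 1) (h2 : ∀ u, x.left.toAdd.1 u = 0) : x = 1 := by
  apply SemidirectProduct.ext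
  · apply Multiplicative.toAdd.injective
    apply Subtype.ext
    funext u
    exact h2 u
  · exact h1

theorem grp_phi_mem (p : ℕ) [Fact p.Prime] {G Q : Type} [Group G] [Group Q] (π : G →* Q)
    (ψ : G → ZMod p)
    (hsum : ∀ g, π g ≠ 1 → ∀ u, ∑ k ∈ Finset.range p, ψ (u * g ^ k) = -1) :
    (fun u => ((1 + p * (ψ u).val : ℕ) : ZMod (p ^ 2))) ∈ grp_M p π := by
  intro g hg u
  have h1 : p ∣ 1 + ∑ k ∈ Finset.range p, (ψ (u * g ^ k)).val := by
    rw [← ZMod.natCast_eq_zero_iff]
    push_cast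
    simp only [ZMod.natCast_val, ZMod.cast_id', id_eq]
    rw [hsum g hg u]
    simp
  obtain ⟨c, hc⟩ := h1
  show ∑ k ∈ Finset.range p, ((1 + p * (ψ (u * g ^ k)).val : ℕ) : ZMod (p ^ 2)) = 0
  rw [← Nat.cast_sum, ZMod.natCast_eq_zero_iff, Finset.sum_add_distrib, ← Finset.mul_sum]
  refine ⟨c, ?_⟩
  simp only [Finset.sum_const, Finset.card_range, smul_eq_mul]
  rw [← mul_add, hc]
  ring

theorem construct_fin (p : ℕ) [Fact p.Prime] {G Q : Type} [Group G] [Finite G] [Group Q]
    (hG : ∀ g : G, g ^ p = 1) (π : G →* Q) (hπ : Function.Surjective π) (ψ : G → ZMod p)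
    (hsum : ∀ g, π g ≠ 1 → ∀ u, ∑ k ∈ Finset.range p, ψ (u * g ^ k) = -1) : Anti p Q := by
  have hp : p.Prime := Fact.out
  have : NeZero (p ^ 2) := ⟨pow_ne_zero _ hp.ne_zero⟩
  let P := SemidirectProduct (Multiplicative (grp_M p π)) G (grp_act p π)
  have hfin : Finite P := Finite.of_equiv _ SemidirectProduct.equivProd.symm
  let ρ : P →* Q := π.comp SemidirectProduct.rightHom
  have hρ : Function.Surjective ρ := hπ.comp SemidirectProduct.rightHom_surjective
  have hsq : ((p ^ 2 : ℕ) : ZMod (p ^ 2)) = 0 := ZMod.natCast_self _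
  refine ⟨P, inferInstance, hfin, ?_, ρ.ker, inferInstance,
    ⟨QuotientGroup.quotientKerEquivOfSurjective ρ hρ⟩, ?_, ?_⟩
  · intro x
    refine ⟨3, ?_⟩
    have h3 : p ^ 3 = p * p ^ 2 := by ring
    rw [h3, pow_mul]
    have hr : (x ^ p).right = 1 := by rw [(grp_pow p π x p).1, hG]
    apply grp_ext p π
    · rw [(grp_pow p π (x ^ p) (p ^ 2)).1, hr, one_pow]
    · intro u
      rw [(grp_pow p π (x ^ p) (p ^ 2)).2 u, hr]
      simp only [one_pow, mul_one, Finset.sum_const, Finset.card_range, nsmul_eq_mul, hsq, zero_mul]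
  · intro x hx
    have hx1 : π x.right ≠ 1 := hx
    apply orderOf_eq_prime
    · apply grp_ext p π
      · rw [(grp_pow p π x p).1, hG]
      · intro u
        rw [(grp_pow p π x p).2 u]
        exact x.left.toAdd.2 x.right hx1 u
    · intro h
      apply hx
      rw [h]
      exact one_mem _
  · refine ⟨⟨Multiplicative.ofAdd ⟨_, grp_phi_mem p π ψ hsum⟩, 1⟩, ?_, ?_⟩
    · show π 1 = 1
      exact map_one π
    · intro h
      have h1 := (grp_pow p π
        ⟨Multiplicative.ofAdd ⟨_, grp_phi_mem p π ψ hsum⟩, 1⟩ p).2 1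
      rw [h] at h1
      have h2 : (0 : ZMod (p ^ 2)) =
          ∑ _i ∈ Finset.range p, ((1 + p * (ψ 1).val : ℕ) : ZMod (p ^ 2)) := by
        refine h1.trans (Finset.sum_congr rfl fun i _ => ?_)
        simp
      rw [← Nat.cast_sum, eq_comm, ZMod.natCast_eq_zero_iff] at h2
      simp only [Finset.sum_const, Finset.card_range, smul_eq_mul] at h2
      have h3 : p * p ∣ p * (1 + p * (ψ 1).val) := by rwa [← pow_two]
      have h4 : p ∣ 1 + p * (ψ 1).val := Nat.dvd_of_mul_dvd_mul_left hp.pos h3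
      have h5 : p ∣ 1 := (Nat.dvd_add_left (Dvd.intro _ rfl)).1 h4
      exact hp.one_lt.ne' (Nat.dvd_one.1 h5)

/-- The right stabiliser of a function. -/
def grp_H {Γ A : Type} [Group Γ] (ψ : Γ → A) : Subgroup Γ where
  carrier := {g | ∀ u, ψ (u * g) = ψ u}
  one_mem' := by
    intro u
    rw [mul_one]
  mul_mem' := by
    intro a b ha hb u
    rw [← mul_assoc, hb, ha]
  inv_mem' := by
    intro a ha u
    rw [← ha (u * a⁻¹), inv_mul_cancel_right]

theorem construct (p : ℕ) [Fact p.Prime] {Γ Q : Type} [Group Γ] [Group Q] [Finite Q]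
    (hQ : ∀ q : Q, q ^ p = 1) (π : Γ →* Q) (hπ : Function.Surjective π) (ψ : Γ → ZMod p)
    {Ω : Type} [Finite Ω] (Θ : Γ → Ω)
    (hΘ : ∀ g g', Θ g = Θ g' → ∀ u, ψ (u * g) = ψ (u * g'))
    (hper : ∀ u g, ψ (u * g ^ p) = ψ u)
    (hsum : ∀ g, π g ≠ 1 → ∀ u, ∑ k ∈ Finset.range p, ψ (u * g ^ k) = -1) : Anti p Q := by
  have : Finite (Γ ⧸ grp_H ψ) := by
    refine Finite.of_injective (fun x : Γ ⧸ grp_H ψ => Θ (Quotient.out x)) ?_
    intro x y hxy
    rw [← QuotientGroup.out_eq' x, ← QuotientGroup.out_eq' y, QuotientGroup.eq]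
    intro u
    rw [← mul_assoc, ← hΘ _ _ hxy, inv_mul_cancel_right]
  have : (grp_H ψ).FiniteIndex := Subgroup.finiteIndex_of_finite_quotient
  have : π.ker.FiniteIndex := Subgroup.finiteIndex_ker π
  let K : Subgroup Γ := (grp_H ψ).normalCore ⊓ π.ker
  have : K.Normal := Subgroup.normal_inf_normal _ _
  have : K.FiniteIndex := inferInstanceAs ((grp_H ψ).normalCore ⊓ π.ker).FiniteIndex
  have hKH : K ≤ grp_H ψ := inf_le_left.trans (Subgroup.normalCore_le _)
  let π' : Γ ⧸ K →* Q := QuotientGroup.lift K π (fun g hg => hg.2)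
  let ψ' : Γ ⧸ K → ZMod p := fun x => Quotient.liftOn' x ψ (fun a b hab => by
    have h1 : a⁻¹ * b ∈ K := QuotientGroup.leftRel_apply.1 hab
    have h2 := hKH h1 a
    rw [mul_inv_cancel_left] at h2
    exact h2.symm)
  refine construct_fin p (G := Γ ⧸ K) ?_ π' ?_ ψ' ?_
  · intro x
    obtain ⟨g, rfl⟩ := QuotientGroup.mk_surjective x
    rw [← QuotientGroup.mk_pow, QuotientGroup.eq_one_iff]
    refine ⟨fun v => ?_, ?_⟩
    · rw [← conj_pow]
      intro u
      exact hper u _
    · show π (g ^ p) = 1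
      rw [map_pow, hQ]
  · intro q
    obtain ⟨g, rfl⟩ := hπ q
    exact ⟨(g : Γ ⧸ K), rfl⟩
  · intro x hx y
    obtain ⟨g, rfl⟩ := QuotientGroup.mk_surjective x
    obtain ⟨u, rfl⟩ := QuotientGroup.mk_surjective y
    rw [← hsum g hx u]
    refine Finset.sum_congr rfl fun k _ => ?_
    rw [← QuotientGroup.mk_pow, ← QuotientGroup.mk_mul]
    rfl

end Pool.Agent.Lib.MP_6d9b00_al.Hu
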