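import Pool.Agent.Lib.MP_6d9b00_al.Hu.Sound
import Pool.Agent.Lib.MP_95ba65_al.LPBch

/-! The Lie algebra generated by two elements of a filtered algebra. -/

namespace Pool.Agent.Lib.MP_6d9b00_al.Hu

open Pool.Agent.Lib.MP_95ba65_al.LP

variable {A : Type} [Ring A] [Algebra ℚ A] (x : Bool → A)

/-- The span of the iterated brackets. -/
def II : Submodule ℚ A := Submodule.span ℚ (Set.range (brG x))

theorem br_mem_II (w : List Bool) : brG x w ∈ II x := Submodule.subset_span ⟨w, rfl⟩

/-- The normaliser of the span of the brackets. -/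
def NN : Submodule ℚ A where
  carrier := {a | ∀ r ∈ II x, a * r - r * a ∈ II x}
  zero_mem' := fun r _ => by simp
  add_mem' := fun {a b} ha hb r hr => by
    have : (a + b) * r - r * (a + b) = (a * r - r * a) + (b * r - r * b) := by noncomm_ring
    rw [this]; exact Submodule.add_mem _ (ha r hr) (hb r hr)
  smul_mem' := fun c a ha r hr => by
    have : (c • a) * r - r * (c • a) = c • (a * r - r * a) := by
      rw [smul_mul_assoc, mul_smul_comm, smul_sub]
    rw [this]; exact Submodule.smul_mem _ _ (ha r hr)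

theorem x_mem_NN (b : Bool) : x b ∈ NN x := by
  intro r hr
  induction hr using Submodule.span_induction with
  | mem r h => obtain ⟨w, rfl⟩ := h; exact br_mem_II x (b :: w)
  | zero => simp
  | add r s _ _ h1 h2 =>
    have : x b * (r + s) - (r + s) * x b = (x b * r - r * x b) + (x b * s - s * x b) := by
      noncomm_ring
    rw [this]; exact Submodule.add_mem _ h1 h2
  | smul c r _ h =>
    have : x b * (c • r) - (c • r) * x b = c • (x b * r - r * x b) := by
      rw [smul_mul_assoc, mul_smul_comm, smul_sub]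
    rw [this]; exact Submodule.smul_mem _ _ h

theorem comm_mem_NN {a b : A} (ha : a ∈ NN x) (hb : b ∈ NN x) : a * b - b * a ∈ NN x := by
  intro r hr
  have : (a * b - b * a) * r - r * (a * b - b * a) =
      (a * (b * r - r * b) - (b * r - r * b) * a) - (b * (a * r - r * a) - (a * r - r * a) * b) := by
    noncomm_ring
  rw [this]
  exact Submodule.sub_mem _ (ha _ (hb r hr)) (hb _ (ha r hr))

theorem II_le_NN : II x ≤ NN x := by
  refine Submodule.span_le.2 ?_
  rintro _ ⟨w, rfl⟩
  induction w with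
  | nil => exact comm_mem_NN x (x_mem_NN x false) (x_mem_NN x true)
  | cons b w ih => exact comm_mem_NN x (x_mem_NN x b) ih

/-- `l` is a Lie element with linear part `a x₀ + b x₁`. -/
def IsL (a b : ℚ) (l : A) : Prop := ∃ r ∈ II x, l = a • x false + b • x true + r

variable {x}

theorem IsL.mem_NN {a b : ℚ} {l : A} (h : IsL x a b l) : l ∈ NN x := by
  obtain ⟨r, hr, rfl⟩ := h
  exact Submodule.add_mem _ (Submodule.add_mem _ (Submodule.smul_mem _ _ (x_mem_NN x _))
    (Submodule.smul_mem _ _ (x_mem_NN x _))) (II_le_NN x hr)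

theorem IsL.comm_mem {a b a' b' : ℚ} {l l' : A} (h : IsL x a b l) (h' : IsL x a' b' l') :
    l * l' - l' * l ∈ II x := by
  have hN := h.mem_NN
  obtain ⟨r, hr, rfl⟩ := h
  obtain ⟨r', hr', rfl⟩ := h'
  have h1 := hN r' hr'
  have h2 := x_mem_NN x false r hr
  have h3 := x_mem_NN x true r hr
  have h4 := br_mem_II x []
  have : (a • x false + b • x true + r) * (a' • x false + b' • x true + r') -
      (a' • x false + b' • x true + r') * (a • x false + b • x true + r) =
      ((a • x false + b • x true + r) * r' - r' * (a • x false + b • x true + r)) -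
      a' • (x false * r - r * x false) - b' • (x true * r - r * x true) +
      (a * b' - b * a') • brG x [] := by
    simp only [brG, add_mul, mul_add, smul_mul_assoc, mul_smul_comm]
    module
  rw [this]
  exact Submodule.add_mem _ (Submodule.sub_mem _ (Submodule.sub_mem _ h1
    (Submodule.smul_mem _ _ h2)) (Submodule.smul_mem _ _ h3)) (Submodule.smul_mem _ _ h4)

variable {F : ℕ → Submodule ℚ A} (hF : Filt F) (hx : ∀ b, x b ∈ F 1)
include hF hx

theorem br_mem_F (w : List Bool) : brG x w ∈ F (w.length + 2) := by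
  induction w with
  | nil =>
    exact Submodule.sub_mem _ (hF.mul' (hx _) (hx _) (by simp)) (hF.mul' (hx _) (hx _) (by simp))
  | cons b w ih =>
    exact Submodule.sub_mem _ (hF.mul' (hx _) ih (by simp; omega))
      (hF.mul' ih (hx _) (by simp))

theorem II_le_F : II x ≤ F 1 := by
  refine Submodule.span_le.2 ?_
  rintro _ ⟨w, rfl⟩
  exact hF.anti (by omega) (br_mem_F hF hx w)

theorem IsL.mem_F {a b : ℚ} {l : A} (h : IsL x a b l) : l ∈ F 1 := by
  obtain ⟨r, hr, rfl⟩ := h
  exact Submodule.add_mem _ (Submodule.add_mem _ (Submodule.smul_mem _ _ (hx _))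
    (Submodule.smul_mem _ _ (hx _))) (II_le_F hF hx hr)

omit hF hx in
theorem un_rat (T : ℕ) : Un ℚ T := fun _ hk _ =>
  isUnit_iff_ne_zero.2 (Nat.cast_ne_zero.2 hk.ne')

theorem IsL.ex_mul {c T : ℕ} (hc : F c = ⊥) (hcT : c ≤ T + 2) {a b a' b' : ℚ} {l l' : A}
    (h : IsL x a b l) (h' : IsL x a' b' l') :
    ∃ z, IsL x (a + a') (b + b') z ∧ ex ℚ (T + 2) l * ex ℚ (T + 2) l' = ex ℚ (T + 2) z := by
  have hl := h.mem_F hF hx
  have hl' := h'.mem_F hF hx
  have hb := bch hF hc hcT (un_rat _) hl hl' (II_le_F hF hx) (h.comm_mem h') h.mem_NN h'.mem_NN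
    (fun r hr s hs => II_le_NN x hr s hs)
  refine ⟨lg ℚ T (ex ℚ (T + 2) l * ex ℚ (T + 2) l'), ?_, ?_⟩
  · obtain ⟨r, hr, e⟩ := h
    obtain ⟨r', hr', e'⟩ := h'
    refine ⟨_, Submodule.add_mem _ (Submodule.add_mem _ hb hr) hr', ?_⟩
    generalize lg ℚ T (ex ℚ (T + 2) l * ex ℚ (T + 2) l') = z
    rw [e, e']; module
  · exact (ex_lg (hF.pow_eq_zero hc hcT
      (hF.mul_sub_one (hF.ex_sub_one_mem hl T) (hF.ex_sub_one_mem hl' T)))).symm

omit hx in
theorem ex_pow {c T : ℕ} (hc : F c = ⊥) (hcT : c ≤ T + 2) {l : A} (hl : l ∈ F 1) (k : ℕ) :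
    ex ℚ (T + 2) l ^ k = ex ℚ (T + 2) ((k : ℚ) • l) := by
  induction k with
  | zero => simp [ex_zero]
  | succ k ih =>
    rw [pow_succ, ih, Nat.cast_succ, add_smul, one_smul,
      ex_add (un_rat _) ((Commute.refl l).smul_left _)]
    intro i j hij
    exact hF.eq_zero hc (hcT.trans hij)
      (hF.mul (hF.pow_one (Submodule.smul_mem _ _ hl) i) (hF.pow_one hl j))

omit hF hx in
theorem lin_congr {t t' : ℕ → ℚ} (ws : List (List Bool)) (i : ℕ) (h : ∀ j, i ≤ j → t j = t' j) :
    lin x t ws i = lin x t' ws i := by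
  induction ws generalizing i with
  | nil => rfl
  | cons w ws ih => rw [lin, lin, h i le_rfl, ih (i + 1) fun j hj => h j (by omega)]

omit hF hx in
theorem exists_lin (ws : List (List Bool)) (i : ℕ) {r : A}
    (hr : r ∈ Submodule.span ℚ (brG x '' {w | w ∈ ws})) : ∃ t : ℕ → ℚ, lin x t ws i = r := by
  induction ws generalizing i r with
  | nil => exact ⟨0, by simpa [lin, eq_comm] using hr⟩
  | cons w ws ih =>
    have : brG x '' {v | v ∈ w :: ws} = insert (brG x w) (brG x '' {v | v ∈ ws}) := by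
      rw [← Set.image_insert_eq]; congr 1; ext v; simp
    rw [this, Submodule.mem_span_insert] at hr
    obtain ⟨c, z, hz, rfl⟩ := hr
    obtain ⟨t, ht⟩ := ih (i + 1) hz
    refine ⟨Function.update t i c, ?_⟩
    rw [lin, Function.update_self, ← ht]
    congr 1
    exact lin_congr ws _ fun j hj => Function.update_of_ne (by omega) _ _

theorem IsL.exists_gen {a b : ℚ} {l : A} (h : IsL x a b l) (k : ℕ) :
    ∃ t : ℕ → ℚ, t 0 = a ∧ t 1 = b ∧ l - gen x t (words k) ∈ F (k + 2) := by
  obtain ⟨r, hr, rfl⟩ := h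
  have h1 : II x ≤ Submodule.span ℚ (brG x '' {w | w ∈ words k}) ⊔ F (k + 2) := by
    refine Submodule.span_le.2 ?_
    rintro _ ⟨w, rfl⟩
    rcases lt_or_ge w.length k with hw | hw
    · exact Submodule.mem_sup_left (Submodule.subset_span ⟨w, mem_words hw, rfl⟩)
    · exact Submodule.mem_sup_right (hF.anti (by omega) (br_mem_F hF hx w))
  obtain ⟨y, hy, z, hz, rfl⟩ := Submodule.mem_sup.1 (h1 hr)
  obtain ⟨t, rfl⟩ := exists_lin (words k) 2 hy
  refine ⟨fun j => if j = 0 then a else if j = 1 then b else t j, rfl, rfl, ?_⟩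
  have : lin x (fun j => if j = 0 then a else if j = 1 then b else t j) (words k) 2 =
      lin x t (words k) 2 :=
    lin_congr _ _ fun j hj => by rw [if_neg (by omega), if_neg (by omega)]
  rw [gen, this]
  convert hz using 1
  simp only [if_true, one_ne_zero, if_false]
  abel

omit hx in
theorem pow_sub_pow_mem {l g : A} {k : ℕ} (hl : l ∈ F 1) (h : l - g ∈ F (k + 1)) (j : ℕ) :
    l ^ (j + 1) - g ^ (j + 1) ∈ F (k + 1 + j) := by
  have hg : g ∈ F 1 := by
    have : g = l - (l - g) := by abel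
    rw [this]; exact Submodule.sub_mem _ hl (hF.anti (by omega) h)
  induction j with
  | zero => simpa using h
  | succ j ih =>
    have : l ^ (j + 1 + 1) - g ^ (j + 1 + 1) =
        (l ^ (j + 1) - g ^ (j + 1)) * l + g ^ (j + 1) * (l - g) := by
      rw [pow_succ l (j + 1), pow_succ g (j + 1)]; noncomm_ring
    rw [this]
    exact Submodule.add_mem _ (hF.mul' ih hl (by omega))
      (hF.mul' (hF.pow_one hg (j + 1)) h (by omega))

end Pool.Agent.Lib.MP_6d9b00_al.Hu
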