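import Pool.Agent.Lib.MP_6d9b00_al.Hu.Lie
import Pool.Agent.Lib.MP_6d9b00_al.Hu.Defs

/-! Truncated shift operators on functions on words. -/

namespace Pool.Agent.Lib.MP_6d9b00_al.Hu

open Pool.Agent.Lib.MP_95ba65_al.LP

/-- Words with at most `n` letters of each kind. -/
def Bd (n : ℕ) (u : List Bool) : Prop := u.count false ≤ n ∧ u.count true ≤ n

instance (n : ℕ) (u : List Bool) : Decidable (Bd n u) := by unfold Bd; infer_instance

theorem count_add (u : List Bool) : u.count false + u.count true = u.length := by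
  induction u with
  | nil => rfl
  | cons b u ih => cases b <;> simp <;> omega

theorem Bd.length_le {n : ℕ} {u : List Bool} (h : Bd n u) : u.length ≤ 2 * n := by
  have := count_add u
  have h1 := h.1
  have h2 := h.2
  omega

theorem Bd.tail {n : ℕ} {b : Bool} {u : List Bool} (h : Bd n (b :: u)) : Bd n u := by
  obtain ⟨h1, h2⟩ := h
  rw [List.count_cons] at h1 h2
  exact ⟨by omega, by omega⟩

theorem bd_of_length {n : ℕ} {u : List Bool} (h : u.length ≤ n) : Bd n u :=
  ⟨List.count_le_length.trans h, List.count_le_length.trans h⟩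

instance (n : ℕ) : Finite {u : List Bool // Bd n u} :=
  ((List.finite_length_le Bool (2 * n)).subset fun _ hu => Bd.length_le hu).to_subtype

/-- The truncated shift. -/
def Xo (n : ℕ) (b : Bool) : Module.End ℚ V where
  toFun φ := fun u => if Bd n (b :: u) then φ (b :: u) else 0
  map_add' φ ψ := by funext u; by_cases h : Bd n (b :: u) <;> simp [h]
  map_smul' a φ := by funext u; by_cases h : Bd n (b :: u) <;> simp [h]

theorem Xo_apply (n : ℕ) (b : Bool) (φ : V) (u : List Bool) :
    Xo n b φ u = if Bd n (b :: u) then φ (b :: u) else 0 := rfl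

/-- Functions supported on bounded words. -/
def Sup (n : ℕ) : Submodule ℚ V where
  carrier := {φ | ∀ u, ¬ Bd n u → φ u = 0}
  zero_mem' := fun _ _ => rfl
  add_mem' := fun {φ ψ} h h' u hu => by simp [h u hu, h' u hu]
  smul_mem' := fun c φ h u hu => by simp [h u hu]

theorem Xo_mem_Sup (n : ℕ) (b : Bool) (φ : V) : Xo n b φ ∈ Sup n := fun u hu => by
  rw [Xo_apply, if_neg fun h => hu h.tail]

theorem Xo_eq_sh {n : ℕ} (b : Bool) {φ : V} (h : φ ∈ Sup n) : Xo n b φ = sh b φ := by
  funext u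
  rw [Xo_apply]
  split_ifs with hu
  · rfl
  · exact (h _ hu).symm

/-- Two operators agree on the supported functions and preserve them. -/
def Agr (n : ℕ) (a a' : Module.End ℚ V) : Prop := ∀ φ ∈ Sup n, a φ = a' φ ∧ a φ ∈ Sup n

theorem agr_X (n : ℕ) (b : Bool) : Agr n (Xo n b) (sh b) :=
  fun φ h => ⟨Xo_eq_sh b h, Xo_mem_Sup n b φ⟩

theorem Agr.mul {n : ℕ} {a a' b b' : Module.End ℚ V} (h : Agr n a a') (h' : Agr n b b') :
    Agr n (a * b) (a' * b') := fun φ hφ => by
  obtain ⟨e, m⟩ := h' φ hφ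
  exact ⟨by rw [Module.End.mul_apply, Module.End.mul_apply, ← e, (h _ m).1], (h _ m).2⟩

theorem Agr.add {n : ℕ} {a a' b b' : Module.End ℚ V} (h : Agr n a a') (h' : Agr n b b') :
    Agr n (a + b) (a' + b') := fun φ hφ =>
  ⟨by rw [LinearMap.add_apply, LinearMap.add_apply, (h φ hφ).1, (h' φ hφ).1],
    Submodule.add_mem _ (h φ hφ).2 (h' φ hφ).2⟩

theorem Agr.sub {n : ℕ} {a a' b b' : Module.End ℚ V} (h : Agr n a a') (h' : Agr n b b') :
    Agr n (a - b) (a' - b') := fun φ hφ =>
  ⟨by rw [LinearMap.sub_apply, LinearMap.sub_apply, (h φ hφ).1, (h' φ hφ).1],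
    Submodule.sub_mem _ (h φ hφ).2 (h' φ hφ).2⟩

theorem Agr.smul {n : ℕ} {a a' : Module.End ℚ V} (c : ℚ) (h : Agr n a a') :
    Agr n (c • a) (c • a') := fun φ hφ =>
  ⟨by rw [LinearMap.smul_apply, LinearMap.smul_apply, (h φ hφ).1],
    Submodule.smul_mem _ _ (h φ hφ).2⟩

theorem Agr.pow {n : ℕ} {a a' : Module.End ℚ V} (h : Agr n a a') (k : ℕ) :
    Agr n (a ^ k) (a' ^ k) := by
  induction k with
  | zero => exact fun φ hφ => ⟨rfl, hφ⟩
  | succ k ih => rw [pow_succ, pow_succ]; exact ih.mul h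

theorem agr_br (n : ℕ) (w : List Bool) : Agr n (brG (Xo n) w) (brG sh w) := by
  induction w with
  | nil => exact ((agr_X n _).mul (agr_X n _)).sub ((agr_X n _).mul (agr_X n _))
  | cons b w ih => exact ((agr_X n _).mul ih).sub (ih.mul (agr_X n _))

theorem agr_lin (n : ℕ) (t : ℕ → ℚ) (ws : List (List Bool)) (i : ℕ) :
    Agr n (lin (Xo n) t ws i) (lin sh t ws i) := by
  induction ws generalizing i with
  | nil => exact fun φ _ => ⟨rfl, Submodule.zero_mem _⟩
  | cons w ws ih => exact ((agr_br n w).smul _).add (ih _)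

theorem agr_gen (n : ℕ) (t : ℕ → ℚ) (ws : List (List Bool)) :
    Agr n (gen (Xo n) t ws) (gen sh t ws) :=
  ((agr_X n _).smul _).add (((agr_X n _).smul _).add (agr_lin n t ws 2))

/-- The filtration of the functions by the length of the support. -/
def UU (n i : ℕ) : Submodule ℚ V where
  carrier := {φ | ∀ u : List Bool, 0 < i → 2 * n < u.length + i → φ u = 0}
  zero_mem' := fun _ _ _ => rfl
  add_mem' := fun {φ ψ} h h' u h0 hu => by simp [h u h0 hu, h' u h0 hu]
  smul_mem' := fun c φ h u h0 hu => by simp [h u h0 hu]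

/-- The filtration of the operators. -/
def FF (n i : ℕ) : Submodule ℚ (Module.End ℚ V) where
  carrier := {a | ∀ j φ, φ ∈ UU n j → a φ ∈ UU n (j + i)}
  zero_mem' := fun _ _ _ => Submodule.zero_mem _
  add_mem' := fun h h' j φ hφ => Submodule.add_mem _ (h j φ hφ) (h' j φ hφ)
  smul_mem' := fun c _ h j φ hφ => Submodule.smul_mem _ c (h j φ hφ)

theorem filt_FF (n : ℕ) : Filt (FF n) where
  one := fun _ _ h => h
  mul := fun {i j a b} ha hb k φ hφ => by
    have := ha _ _ (hb k φ hφ)
    rwa [show k + j + i = k + (i + j) by omega] at this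
  anti := fun i i' hi a ha j φ hφ u h0 hu => ha j φ hφ u (by omega) (by omega)

theorem FF_bot (n : ℕ) : FF n (2 * n + 1) = ⊥ := by
  rw [eq_bot_iff]
  intro a ha
  rw [Submodule.mem_bot]
  refine LinearMap.ext fun φ => funext fun u => ?_
  exact ha 0 φ (fun _ h => absurd h (lt_irrefl 0)) u (by omega) (by omega)

theorem Xo_mem_FF (n : ℕ) (b : Bool) : Xo n b ∈ FF n 1 := by
  intro j φ hφ u _ hu
  rw [Xo_apply]
  split_ifs with h
  · have := h.length_le
    rw [List.length_cons] at this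
    exact hφ _ (by omega) (by rw [List.length_cons]; omega)
  · rfl

theorem Xo_pow_apply (n : ℕ) (b : Bool) (j : ℕ) (φ : V) (u : List Bool)
    (h : n < u.count b + (j + 1)) : (Xo n b ^ (j + 1)) φ u = 0 := by
  induction j generalizing u with
  | zero =>
    rw [zero_add, pow_one, Xo_apply, if_neg]
    rintro ⟨h1, h2⟩
    cases b <;> simp at h1 h2 <;> omega
  | succ j ih =>
    rw [pow_succ', Module.End.mul_apply, Xo_apply, ih (b :: u) (by simp; omega), ite_self]

theorem Xo_pow_eq_zero {n j : ℕ} (b : Bool) (h : n < j) : Xo n b ^ j = 0 := by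
  obtain ⟨j, rfl⟩ : ∃ k, j = k + 1 := ⟨j - 1, by omega⟩
  exact LinearMap.ext fun φ => funext fun u => Xo_pow_apply n b j φ u (by omega)

/-- The divided powers with shifted index. -/
def psi (a b : ℚ) : ℕ → V
  | 0 => 0
  | r + 1 => phi a b r

theorem phi_len (a b : ℚ) (r : ℕ) (u : List Bool) (h : u.length ≠ r) : phi a b r u = 0 := by
  induction r generalizing u with
  | zero => rw [phi]; exact if_neg fun e => h (by simp [e])
  | succ r ih =>
    rcases u with _ | ⟨c, u⟩
    · simp [phi, up]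
    · have := ih u (by simpa using h)
      simp [phi, up, this]

theorem psi_mem_Sup (a b : ℚ) {n r : ℕ} (h : r ≤ n + 1) : psi a b r ∈ Sup n := by
  cases r with
  | zero => exact Submodule.zero_mem _
  | succ r => exact fun u hu => phi_len a b r u fun e => hu (bd_of_length (by omega))

theorem Xo_psi (a b : ℚ) {n r : ℕ} (h : r ≤ n + 1) (c : Bool) :
    Xo n c (psi a b r) = (if c = true then -a else b) • psi a b (r - 1) := by
  rw [Xo_eq_sh c (psi_mem_Sup a b h)]
  rcases r with _ | _ | r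
  · simp [psi]
  · funext u; simp [psi, phi, sh]
  · funext u; cases c <;> simp [psi, phi, sh, up]

theorem br_psi (a b : ℚ) {n : ℕ} (w : List Bool) {r : ℕ} (h : r ≤ n + 1) :
    brG (Xo n) w (psi a b r) = 0 := by
  induction w generalizing r with
  | nil =>
    have h' : r - 1 ≤ n + 1 := by omega
    simp only [brG, LinearMap.sub_apply, Module.End.mul_apply, Xo_psi a b h, map_smul,
      Xo_psi a b h', smul_smul]
    simp [mul_comm]
  | cons c w ih =>
    have h' : r - 1 ≤ n + 1 := by omega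
    simp only [brG, LinearMap.sub_apply, Module.End.mul_apply, Xo_psi a b h, map_smul, ih h, ih h',
      map_zero, smul_zero, sub_zero]

theorem IsL.psi {n : ℕ} {a' b' : ℚ} {l : Module.End ℚ V} (hl : IsL (Xo n) a' b' l) (a b : ℚ)
    {r : ℕ} (h : r ≤ n + 1) : l (psi a b r) = (a' * b - b' * a) • psi a b (r - 1) := by
  obtain ⟨z, hz, rfl⟩ := hl
  have h0 : z (Hu.psi a b r) = 0 := by
    induction hz using Submodule.span_induction with
    | mem z h' => obtain ⟨w, rfl⟩ := h'; exact br_psi a b w h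
    | zero => rfl
    | add z z' _ _ h1 h2 => rw [LinearMap.add_apply, h1, h2, add_zero]
    | smul c z _ h1 => rw [LinearMap.smul_apply, h1, smul_zero]
  simp only [LinearMap.add_apply, LinearMap.smul_apply, Xo_psi a b h, h0, add_zero, smul_smul]
  simp only [Bool.false_eq_true, if_false, if_true]
  module

theorem IsL.pow_psi {n : ℕ} {a' b' : ℚ} {l : Module.End ℚ V} (hl : IsL (Xo n) a' b' l) (a b : ℚ)
    {r : ℕ} (h : r ≤ n + 1) (j : ℕ) :
    (l ^ j) (Hu.psi a b r) = (a' * b - b' * a) ^ j • Hu.psi a b (r - j) := by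
  induction j with
  | zero => simp
  | succ j ih =>
    rw [pow_succ', Module.End.mul_apply, ih, map_smul, hl.psi a b (by omega), smul_smul, pow_succ,
      Nat.sub_sub]

theorem psi_nil (a b : ℚ) (r : ℕ) : psi a b r [] = if r = 1 then 1 else 0 := by
  rcases r with _ | _ | r
  · rfl
  · simp [psi, phi]
  · rw [if_neg (by omega)]; exact phi_len a b _ _ (by simp)

theorem IsL.ex_psi {n : ℕ} {a' b' : ℚ} {l : Module.End ℚ V} (hl : IsL (Xo n) a' b' l) (a b : ℚ) :
    ex ℚ (2 * n + 2) l (Hu.psi a b (n + 1)) [] = fi ℚ n * (a' * b - b' * a) ^ n := by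
  rw [ex, LinearMap.sum_apply, Finset.sum_apply, Finset.sum_eq_single n]
  · rw [LinearMap.smul_apply, hl.pow_psi a b le_rfl]
    simp [psi_nil]
  · intro j _ hj
    rw [LinearMap.smul_apply, hl.pow_psi a b le_rfl]
    simp only [Pi.smul_apply, psi_nil, smul_eq_mul]
    rw [if_neg (by omega)]; simp
  · intro h; exact absurd (Finset.mem_range.2 (by omega)) h

theorem IsL.star {n : ℕ} (hn : 1 ≤ n) {K : ℤ} {f : Tr} (hs : Tr.sc f n n = true)
    (hc : chk n (words n) K f = true) {a b : ℚ} {l : Module.End ℚ V} (hl : IsL (Xo n) a b l) :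
    (l ^ n) (Tr.den f) = (K : ℚ) • Hu.psi a b (n + 1) := by
  obtain ⟨t, rfl, rfl, ht⟩ := hl.exists_gen (filt_FF n) (Xo_mem_FF n) n
  have hf : Tr.den f ∈ Sup n := fun u hu => by
    rw [Tr.den, Tr.sc_sound f n n hs u hu, Int.cast_zero]
  obtain ⟨m, rfl⟩ : ∃ m, n = m + 1 := ⟨n - 1, by omega⟩
  have h1 := pow_sub_pow_mem (filt_FF _) (hl.mem_F (filt_FF _) (Xo_mem_FF _)) ht m
  have h2 := (filt_FF _).eq_zero (FF_bot _) (by omega) h1
  rw [sub_eq_zero.1 h2, (((agr_gen _ t _).pow _) _ hf).1, chk_sound hc]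
  rfl

end Pool.Agent.Lib.MP_6d9b00_al.Hu
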