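import Pool.Agent.Lib.MP_6d9b00_al.Hu.Grp
import Pool.Agent.Lib.MP_6d9b00_al.Hu.Dif

/-! From symbols to groups. -/

namespace Pool.Agent.Lib.MP_6d9b00_al.Hu

/-- The exponent sums modulo `p`. -/
def pass_pi (p : ℕ) : FreeGroup Bool →* Multiplicative (ZMod p × ZMod p) :=
  (AddMonoidHom.toMultiplicative
    ((Int.castAddHom (ZMod p)).prodMap (Int.castAddHom (ZMod p)))).comp pz

theorem pass_pi_toAdd (p : ℕ) (g : FreeGroup Bool) :
    (pass_pi p g).toAdd = ((((pz g).toAdd.1 : ℤ) : ZMod p), (((pz g).toAdd.2 : ℤ) : ZMod p)) := rfl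

theorem pass_pi_surj (p : ℕ) [NeZero p] : Function.Surjective (pass_pi p) := by
  intro q
  refine ⟨FreeGroup.of false ^ q.toAdd.1.val * FreeGroup.of true ^ q.toAdd.2.val, ?_⟩
  apply Multiplicative.toAdd.injective
  rw [map_mul, map_pow, map_pow, toAdd_mul, toAdd_pow, toAdd_pow, pass_pi_toAdd, pass_pi_toAdd]
  ext <;> simp [pz]

theorem pass_pow (p : ℕ) (q : Multiplicative (ZMod p × ZMod p)) : q ^ p = 1 := by
  apply Multiplicative.toAdd.injective
  rw [toAdd_pow, toAdd_one]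
  ext <;> simp

theorem pass_count (p : ℕ) [Fact p.Prime] (v w : ZMod p × ZMod p) (hw : w ≠ 0) :
    ∑ k ∈ Finset.range p, (if v + k • w = 0 then (1 : ZMod p) else 0) =
      if v.1 * w.2 - v.2 * w.1 = 0 then 1 else 0 := by
  have key : ∀ k : ℕ, v + k • w = 0 ↔
      v.1 + (k : ZMod p) * w.1 = 0 ∧ v.2 + (k : ZMod p) * w.2 = 0 := by
    intro k
    rw [Prod.ext_iff]
    simp
  have hw' : w.1 ≠ 0 ∨ w.2 ≠ 0 := by
    by_contra h
    push Not at h
    exact hw (Prod.ext h.1 h.2)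
  split_ifs with hD
  · obtain ⟨t, h1, h2⟩ : ∃ t : ZMod p, v.1 + t * w.1 = 0 ∧ v.2 + t * w.2 = 0 := by
      rcases hw' with h | h
      · refine ⟨-v.1 / w.1, by field_simp; ring, ?_⟩
        field_simp
        linear_combination -hD
      · refine ⟨-v.2 / w.2, ?_, by field_simp; ring⟩
        field_simp
        linear_combination hD
    rw [Finset.sum_eq_single t.val]
    · rw [if_pos]
      rw [key, ZMod.natCast_zmod_val]
      exact ⟨h1, h2⟩
    · intro k hk hne
      rw [if_neg]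
      rw [key]
      rintro ⟨a1, a2⟩
      apply hne
      have e : (k : ZMod p) = t := by
        rcases hw' with h | h
        · exact mul_right_cancel₀ h (by linear_combination a1 - h1)
        · exact mul_right_cancel₀ h (by linear_combination a2 - h2)
      rw [← e, ZMod.val_cast_of_lt (Finset.mem_range.1 hk)]
    · intro h
      exact (h (Finset.mem_range.2 (ZMod.val_lt t))).elim
  · refine Finset.sum_eq_zero fun k _ => if_neg ?_
    rw [key]
    rintro ⟨a1, a2⟩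
    exact hD (by linear_combination w.2 * a1 - w.1 * a2)

theorem anti_of_sym (p : ℕ) [Fact p.Prime] (κ : ℤ) (hκ : (κ : ZMod p) ≠ 0) (h : Sym (p - 1) κ) :
    Anti p (Multiplicative (ZMod p × ZMod p)) := by
  classical
  obtain ⟨μ, hμ, hfin⟩ := h
  obtain ⟨Ω, _, Θ, hΘ⟩ := hfin p (Fact.out : p.Prime).pos
  refine construct p (pass_pow p) (pass_pi p) (pass_pi_surj p)
    (fun u => (κ : ZMod p)⁻¹ * (μ u : ZMod p) - if pass_pi p u = 1 then 1 else 0)
    (Ω := Ω × Multiplicative (ZMod p × ZMod p)) (fun g => (Θ g, pass_pi p g)) ?_ ?_ ?_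
  · intro g g' e u
    obtain ⟨e1, e2⟩ := Prod.mk.inj e
    simp only [map_mul]
    rw [hΘ g g' e1 u, e2]
  · intro u g
    obtain ⟨q, q1, -, q3⟩ := hμ u g
    have := dif_per p (fun k => μ (u * g ^ k)) q q1 q3
    simp only [pow_zero, mul_one] at this
    simp only [map_mul, map_pow, pass_pow, mul_one]
    rw [this]
  · intro g hg u
    obtain ⟨q, q1, q2, q3⟩ := hμ u g
    have s1 := dif_sum p (fun k => μ (u * g ^ k)) q q1 _ q2 q3
    have hw : (pass_pi p g).toAdd ≠ 0 := fun e => hg (Multiplicative.toAdd.injective e)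
    have s2 := pass_count p (pass_pi p u).toAdd (pass_pi p g).toAdd hw
    have e : ∀ k : ℕ, pass_pi p (u * g ^ k) = 1 ↔
        (pass_pi p u).toAdd + k • (pass_pi p g).toAdd = 0 := by
      intro k
      rw [← Multiplicative.toAdd.injective.eq_iff, map_mul, map_pow, toAdd_mul, toAdd_pow,
        toAdd_one]
    have d : (pass_pi p u).toAdd.1 * (pass_pi p g).toAdd.2 -
        (pass_pi p u).toAdd.2 * (pass_pi p g).toAdd.1 = (Dl u g : ZMod p) := by
      simp only [pass_pi_toAdd, Dl]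
      push_cast
      rfl
    rw [d] at s2
    simp only [e]
    rw [Finset.sum_sub_distrib, ← Finset.mul_sum, s1, s2]
    push_cast
    rw [mul_neg, ← mul_assoc, inv_mul_cancel₀ hκ, one_mul]
    split_ifs with hD
    · rw [hD, zero_pow (by have := (Fact.out : p.Prime).two_le; omega)]
      ring
    · rw [ZMod.pow_card_sub_one_eq_one hD]
      ring

theorem pass_unit (p : ℕ) (hp : p.Prime) (r : ℕ) (h0 : 0 < r) (hr : r < p) :
    ((r : ℕ) : ZMod p) ≠ 0 := by
  rw [Ne, ZMod.natCast_eq_zero_iff]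
  exact fun h => absurd (Nat.le_of_dvd h0 h) (by omega)

theorem anti_all (h4 : Sym 4 (2 ^ 3 * 3 ^ 7)) (h6 : Sym 6 (2 ^ 9 * 3 ^ 12 * 5 ^ 14)) (p : ℕ)
    (hp : p.Prime) (h5 : 5 ≤ p) : Anti p (Multiplicative (ZMod p × ZMod p)) := by
  haveI : Fact p.Prime := ⟨hp⟩
  have u2 : (2 : ZMod p) ≠ 0 := by exact_mod_cast pass_unit p hp 2 (by omega) (by omega)
  have u3 : (3 : ZMod p) ≠ 0 := by exact_mod_cast pass_unit p hp 3 (by omega) (by omega)
  have hodd : p % 2 = 1 := (hp.eq_two_or_odd).resolve_left (by omega)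
  by_cases c : p % 4 = 1
  · have e : p - 1 = 4 * (p / 4) := by omega
    refine anti_of_sym p ((2 ^ 3 * 3 ^ 7) ^ (p / 4)) ?_ (e ▸ h4.pow (p / 4))
    rw [Int.cast_pow, Int.cast_mul, Int.cast_pow, Int.cast_pow, Int.cast_ofNat, Int.cast_ofNat]
    exact pow_ne_zero _ (mul_ne_zero (pow_ne_zero _ u2) (pow_ne_zero _ u3))
  · have u5 : (5 : ZMod p) ≠ 0 := by exact_mod_cast pass_unit p hp 5 (by omega) (by omega)
    have e : p - 1 = 4 * (p / 4 - 1) + 6 := by omega
    refine anti_of_sym p ((2 ^ 3 * 3 ^ 7) ^ (p / 4 - 1) * (2 ^ 9 * 3 ^ 12 * 5 ^ 14)) ?_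
      (e ▸ (h4.pow (p / 4 - 1)).mul h6)
    simp only [Int.cast_pow, Int.cast_mul, Int.cast_ofNat]
    exact mul_ne_zero (pow_ne_zero _ (mul_ne_zero (pow_ne_zero _ u2) (pow_ne_zero _ u3)))
      (mul_ne_zero (mul_ne_zero (pow_ne_zero _ u2) (pow_ne_zero _ u3)) (pow_ne_zero _ u5))

end Pool.Agent.Lib.MP_6d9b00_al.Hu
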