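import Pool.Agent.Lib.MP_6d9b00_al.Hu.Chk

/-! Soundness of the checker. -/

namespace Pool.Agent.Lib.MP_6d9b00_al.Hu

/-- Rational functions on binary words. -/
abbrev V := List Bool → ℚ

/-- Iterated brackets of two elements. -/
def brG {A : Type} [Ring A] (x : Bool → A) : List Bool → A
  | [] => x false * x true - x true * x false
  | b :: w => x b * brG x w - brG x w * x b

/-- A linear combination of brackets. -/
def lin {A : Type} [Ring A] [Algebra ℚ A] (x : Bool → A) (t : ℕ → ℚ) : List (List Bool) → ℕ → A
  | [], _ => 0
  | w :: ws, i => t i • brG x w + lin x t ws (i + 1)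

/-- The generic element. -/
def gen {A : Type} [Ring A] [Algebra ℚ A] (x : Bool → A) (t : ℕ → ℚ) (ws : List (List Bool)) : A :=
  t 0 • x false + (t 1 • x true + lin x t ws 2)

/-- The shift by a letter. -/
def sh (b : Bool) : Module.End ℚ V where
  toFun φ := fun u => φ (b :: u)
  map_add' _ _ := rfl
  map_smul' _ _ := rfl

/-- Prepend a letter. -/
def up (b : Bool) : Module.End ℚ V where
  toFun φ := fun u => match u with
    | [] => 0
    | c :: u => if c = b then φ u else 0
  map_add' φ ψ := by
    funext u
    rcases u with _ | ⟨c, u⟩
    · simp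
    · by_cases h : c = b <;> simp [h]
  map_smul' a φ := by
    funext u
    rcases u with _ | ⟨c, u⟩
    · simp
    · by_cases h : c = b <;> simp [h]

/-- The divided powers of the linear function with coefficients `b`, `-a`. -/
def phi (a b : ℚ) : ℕ → V
  | 0 => fun u => if u = [] then 1 else 0
  | r + 1 => b • up false (phi a b r) - a • up true (phi a b r)

namespace Tr

/-- The integer function of a trie. -/
def dz : Tr → List Bool → ℤ
  | nil, _ => 0
  | leaf v, [] => v
  | leaf _, _ :: _ => 0
  | node _ _, [] => 0
  | node l _, false :: u => dz l u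
  | node _ r, true :: u => dz r u
  | dif s t, u => dz s u - dz t u

theorem frc_eq {α : Type} (t : Tr) (k : Tr → α) : frc t k = k t := by cases t <;> rfl

theorem dz_mkLeaf (v : ℤ) (u : List Bool) : dz (mkLeaf v) u = dz (leaf v) u := by
  rcases v with (_ | n) | (_ | n) <;> rcases u with _ | ⟨c, u⟩ <;> rfl

theorem dz_mkNode (l r : Tr) (u : List Bool) : dz (mkNode l r) u = dz (node l r) u := by
  cases l <;> cases r <;> rcases u with _ | ⟨_ | _, u⟩ <;> rfl

theorem dz_neg (t : Tr) (u : List Bool) : dz (neg t) u = -dz t u := by
  induction t generalizing u with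
  | nil => rfl
  | leaf v =>
    change dz (mkLeaf (-v)) u = _
    rw [dz_mkLeaf]; rcases u with _ | ⟨c, u⟩ <;> simp [dz]
  | node l r ihl ihr =>
    change dz (mkNode (neg l) (neg r)) u = _
    rw [dz_mkNode]; rcases u with _ | ⟨_ | _, u⟩ <;> simp [dz, ihl, ihr]
  | dif s t _ _ =>
    change dz (dif t s) u = _
    simp [dz]

theorem dz_sub (s t : Tr) (u : List Bool) : dz (sub s t) u = dz s u - dz t u := by
  induction s generalizing t u with
  | nil =>
    change dz (neg t) u = _
    simp [dz_neg, dz]
  | leaf a =>
    cases t with
    | nil => change dz (leaf a) u = _; simp [dz]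
    | leaf b =>
      change dz (mkLeaf (a - b)) u = _
      rw [dz_mkLeaf]; rcases u with _ | ⟨c, u⟩ <;> simp [dz]
    | node l r => rfl
    | dif l r => rfl
  | node l r ihl ihr =>
    cases t with
    | nil => change dz (node l r) u = _; simp [dz]
    | leaf b => rfl
    | node l' r' =>
      change dz (mkNode (sub l l') (sub r r')) u = _
      rw [dz_mkNode]; rcases u with _ | ⟨_ | _, u⟩ <;> simp [dz, ihl, ihr]
    | dif l' r' => rfl
  | dif l r _ _ => rfl

theorem dz_add (s t : Tr) (u : List Bool) : dz (add s t) u = dz s u + dz t u := by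
  induction s generalizing t u with
  | nil =>
    change dz t u = _
    simp [dz]
  | leaf a =>
    cases t with
    | nil => change dz (leaf a) u = _; simp [dz]
    | leaf b =>
      change dz (mkLeaf (a + b)) u = _
      rw [dz_mkLeaf]; rcases u with _ | ⟨c, u⟩ <;> simp [dz]
    | node l r =>
      change dz (dif (leaf a) (dif nil (node l r))) u = _
      simp only [dz]; ring
    | dif l r =>
      change dz (dif (leaf a) (dif r l)) u = _
      simp only [dz]; ring
  | node l r ihl ihr =>
    cases t with
    | nil => change dz (node l r) u = _; simp [dz]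
    | leaf b =>
      change dz (dif (node l r) (dif nil (leaf b))) u = _
      simp only [dz]; ring
    | node l' r' =>
      change dz (mkNode (add l l') (add r r')) u = _
      rw [dz_mkNode]; rcases u with _ | ⟨_ | _, u⟩ <;> simp [dz, ihl, ihr]
    | dif l' r' =>
      change dz (dif (node l r) (dif r' l')) u = _
      simp only [dz]; ring
  | dif l r _ _ =>
    change dz (dif t (dif r l)) u = _
    simp only [dz]; ring

theorem dz_ch (b : Bool) (t : Tr) (u : List Bool) : dz (ch b t) u = dz t (b :: u) := by
  induction t with
  | nil => rfl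
  | leaf v => rfl
  | node l r _ _ => cases b <;> rfl
  | dif s t ihs iht =>
    change dz (ch b s) u - dz (ch b t) u = _
    rw [ihs, iht]; rfl

/-- The rational function of a trie. -/
def den (t : Tr) : V := fun u => (dz t u : ℚ)

theorem den_nil : den nil = 0 := by funext u; simp [den, dz]

theorem den_neg (t : Tr) : den (neg t) = -den t := by funext u; simp [den, dz_neg]

theorem den_sub (s t : Tr) : den (sub s t) = den s - den t := by funext u; simp [den, dz_sub]

theorem den_add (s t : Tr) : den (add s t) = den s + den t := by funext u; simp [den, dz_add]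

theorem den_ch (b : Bool) (t : Tr) : den (ch b t) = sh b (den t) := by
  funext u; simp [den, dz_ch, sh]

theorem den_brT (w : List Bool) (t : Tr) : den (brT w t) = brG sh w (den t) := by
  induction w generalizing t with
  | nil =>
    change den (sub (ch false (ch true t)) (ch true (ch false t))) = _
    simp [den_sub, den_ch, brG]
  | cons b w ih =>
    have key : den (sub (ch b (brT w t)) (brT w (ch b t))) = brG sh (b :: w) (den t) := by
      simp [den_sub, den_ch, brG, ih]
    cases t with
    | nil => change den nil = _; simp [den_nil]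
    | leaf v =>
      rw [← key]
      change den nil = _
      have h0 : ∀ c, sh c (den (leaf v)) = 0 := fun c => by rw [← den_ch]; exact den_nil
      have h1 : ∀ w', brG sh w' (den (leaf v)) = 0 := by
        intro w'
        induction w' with
        | nil => simp [brG, h0]
        | cons c w' ih' => simp [brG, h0, ih']
      rw [key, h1, den_nil]
    | node l r => rw [← key]; rfl
    | dif l r => rw [← key]; rfl

theorem den_node_left (t : Tr) : den (node t nil) = up false (den t) := by
  funext u; rcases u with _ | ⟨_ | _, u⟩ <;> simp [den, dz, up]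

theorem den_node_right (t : Tr) : den (node nil t) = up true (den t) := by
  funext u; rcases u with _ | ⟨_ | _, u⟩ <;> simp [den, dz, up]

theorem sc_sound (t : Tr) (a b : ℕ) (h : sc t a b = true) (u : List Bool)
    (hu : ¬ (u.count false ≤ a ∧ u.count true ≤ b)) : dz t u = 0 := by
  induction t generalizing a b u with
  | nil => rfl
  | leaf v =>
    rcases u with _ | ⟨c, u⟩
    · simp at hu
    · rfl
  | node l r ihl ihr =>
    have h' := Bool.and_eq_true_iff.1 h
    rcases u with _ | ⟨_ | _, u⟩
    · rfl
    · change dz l u = 0
      have h1 := h'.1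
      simp only [List.count_cons, beq_self_eq_true, if_true] at hu
      cases l with
      | nil => rfl
      | leaf v =>
        cases a with
        | zero => exact absurd h1 (by simp)
        | succ a => exact ihl a b h1 u (by simp at hu ⊢; omega)
      | node l1 l2 =>
        cases a with
        | zero => exact absurd h1 (by simp)
        | succ a => exact ihl a b h1 u (by simp at hu ⊢; omega)
      | dif l1 l2 => exact absurd h1 (by simp)
    · change dz r u = 0
      have h1 := h'.2
      simp only [List.count_cons, beq_self_eq_true, if_true] at hu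
      cases r with
      | nil => rfl
      | leaf v =>
        cases b with
        | zero => exact absurd h1 (by simp)
        | succ b => exact ihr a b h1 u (by simp at hu ⊢; omega)
      | node l1 l2 =>
        cases b with
        | zero => exact absurd h1 (by simp)
        | succ b => exact ihr a b h1 u (by simp at hu ⊢; omega)
      | dif l1 l2 => exact absurd h1 (by simp)
  | dif s t _ _ => exact absurd h (by simp [sc])

end Tr

open Tr

/-- The value of a table. -/
def ev (t : ℕ → ℚ) : Tb → V
  | [] => 0
  | a :: tb => (a.1.map t).prod • den a.2 + ev t tb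

theorem prod_ins (t : ℕ → ℚ) (i : ℕ) (m : List ℕ) :
    ((ins i m).map t).prod = t i * (m.map t).prod := by
  induction m with
  | nil => rfl
  | cons j m ih =>
    change (List.map t (Bool.casesOn (Nat.ble i j) (j :: ins i m) (i :: j :: m))).prod = _
    cases Nat.ble i j
    · simp only [List.map_cons, List.prod_cons, ih]; ring
    · simp only [List.map_cons, List.prod_cons]

theorem cmpL_eq {m m' : List ℕ} (h : cmpL m m' = Ordering.eq) : m = m' := by
  induction m generalizing m' with
  | nil =>
    cases m' with
    | nil => rfl
    | cons j m' => exact absurd h (by simp [cmpL])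
  | cons i m ih =>
    cases m' with
    | nil => exact absurd h (by simp [cmpL])
    | cons j m' =>
      change (Bool.casesOn (Nat.beq i j) (Bool.casesOn (Nat.ble i j) Ordering.gt Ordering.lt)
        (cmpL m m') : Ordering) = _ at h
      cases hb : Nat.beq i j
      · rw [hb] at h
        cases hc : Nat.ble i j <;> rw [hc] at h <;> exact absurd h (by simp)
      · rw [hb] at h
        rw [Nat.eq_of_beq_eq_true hb, ih h]

theorem ev_consT (t : ℕ → ℚ) (m : List ℕ) (x : Tr) (tb : Tb) :
    ev t (consT m x tb) = (m.map t).prod • den x + ev t tb := by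
  cases x with
  | nil => change ev t tb = _; simp [den_nil]
  | leaf v => rfl
  | node a b => rfl
  | dif a b => rfl

theorem ev_merge (t : ℕ → ℚ) (s s' : Tb) : ev t (merge s s') = ev t s + ev t s' := by
  induction s generalizing s' with
  | nil => change ev t s' = _; simp [ev]
  | cons a s ih =>
    obtain ⟨m, x⟩ := a
    induction s' with
    | nil => change ev t ((m, x) :: s) = _; simp [ev]
    | cons b s' ih' =>
      obtain ⟨m', y⟩ := b
      change ev t (Ordering.casesOn (cmpL m m') ((m, x) :: merge s ((m', y) :: s'))
        (consT m (Tr.add x y) (merge s s')) ((m', y) :: merge ((m, x) :: s) s')) = _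
      cases hc : cmpL m m'
      · simp only [ev, ih]; abel
      · obtain rfl := cmpL_eq hc
        simp only [ev, ev_consT, ih, den_add, smul_add]; abel
      · change (m'.map t).prod • den y + ev t (merge ((m, x) :: s) s') = _
        rw [ih']; simp only [ev]; abel

theorem ev_mapS (t : ℕ → ℚ) (i : ℕ) (f : Tr → Tr) (φ : Module.End ℚ V)
    (hf : ∀ x, den (f x) = φ (den x)) (tb : Tb) : ev t (mapS i f tb) = t i • φ (ev t tb) := by
  induction tb with
  | nil => change (0 : V) = _; simp [ev]
  | cons a tb ih =>
    obtain ⟨m, x⟩ := a
    change ev t (consT (ins i m) (f x) (mapS i f tb)) = _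
    rw [ev_consT, prod_ins, hf, ih]
    simp [ev, mul_smul]

theorem frcM_eq {α : Type} (m : List ℕ) (k : List ℕ → α) : frcM m k = k m := by
  induction m generalizing k with
  | nil => rfl
  | cons i m ih => cases i <;> exact ih _

theorem frcT_eq {α : Type} (tb : Tb) (k : Tb → α) : frcT tb k = k tb := by
  induction tb generalizing k with
  | nil => rfl
  | cons a tb ih =>
    obtain ⟨m, x⟩ := a
    change frcM m (fun m' => Tr.frc x fun x' => frcT tb fun tb' => k ((m', x') :: tb')) = _
    rw [frcM_eq, frc_eq, ih]

theorem ev_rest (t : ℕ → ℚ) (tb : Tb) (ws : List (List Bool)) (i : ℕ) :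
    ev t (rest tb ws i) = lin sh t ws i (ev t tb) := by
  induction ws generalizing i with
  | nil => rfl
  | cons w ws ih =>
    change ev t (merge (mapS i (Tr.brT w) tb) (rest tb ws (i + 1))) = _
    rw [ev_merge, ev_mapS t i _ _ (den_brT w), ih]; rfl

theorem ev_step (t : ℕ → ℚ) (ws : List (List Bool)) (tb : Tb) :
    ev t (step ws tb) = gen sh t ws (ev t tb) := by
  rw [step, ev_merge, ev_merge, ev_mapS t 0 _ _ (den_ch false), ev_mapS t 1 _ _ (den_ch true),
    ev_rest]
  rfl

theorem ev_steps (t : ℕ → ℚ) (ws : List (List Bool)) (n : ℕ) (tb : Tb) :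
    ev t (steps ws n tb) = (gen sh t ws ^ n) (ev t tb) := by
  induction n generalizing tb with
  | zero => rfl
  | succ n ih =>
    change ev t (frcT (step ws tb) (steps ws n)) = _
    rw [frcT_eq, ih, ev_step, pow_succ]; rfl

theorem ev_Qt (t : ℕ → ℚ) (K : ℤ) (r : ℕ) : ev t (Qt K r) = (K : ℚ) • phi (t 0) (t 1) r := by
  induction r with
  | zero =>
    change ev t [([], Tr.leaf K)] = _
    funext u
    rcases u with _ | ⟨c, u⟩ <;> simp [ev, den, dz, phi]
  | succ r ih =>
    change ev t (frcT (Qt K r) fun q => merge (mapS 1 (fun t => Tr.node t Tr.nil) q)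
      (mapS 0 (fun t => Tr.node Tr.nil (Tr.neg t)) q)) = _
    rw [frcT_eq, ev_merge, ev_mapS t 1 _ _ den_node_left,
      ev_mapS t 0 _ (-up true) (fun x => by rw [den_node_right, den_neg]; simp), ih, phi]
    simp only [map_smul, LinearMap.neg_apply, smul_sub, smul_neg]
    rw [smul_comm (t 1), smul_comm (t 0), sub_eq_add_neg]

theorem chk_sound {n : ℕ} {ws : List (List Bool)} {K : ℤ} {f : Tr} (h : chk n ws K f = true)
    (t : ℕ → ℚ) : (gen sh t ws ^ n) (den f) = (K : ℚ) • phi (t 0) (t 1) n := by
  have h0 : merge (steps ws n [([], f)]) (Qt (-K) n) = [] := by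
    unfold chk at h
    cases hc : merge (steps ws n [([], f)]) (Qt (-K) n) with
    | nil => rfl
    | cons a l => rw [hc] at h; exact absurd h (by simp)
  have h1 := congrArg (ev t) h0
  rw [ev_merge, ev_steps, ev_Qt] at h1
  simp only [ev, List.map_nil, List.prod_nil, one_smul, add_zero, Int.cast_neg, neg_smul] at h1
  exact add_neg_eq_zero.1 h1

theorem mem_words {k : ℕ} {w : List Bool} (h : w.length < k) : w ∈ words k := by
  induction k generalizing w with
  | zero => omega
  | succ k ih =>
    rcases w with _ | ⟨b, w⟩
    · simp [words]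
    · have := ih (w := w) (by simpa using h)
      cases b <;> simp [words, this]

end Pool.Agent.Lib.MP_6d9b00_al.Hu
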