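import Pool.Agent.Lib.MP_6d9b00_al.Hu.Op
import Pool.Agent.Lib.MP_6d9b00_al.Hu.Data

/-! The symbols of degree four and six. -/

namespace Pool.Agent.Lib.MP_6d9b00_al.Hu

open Pool.Agent.Lib.MP_95ba65_al.LP Polynomial

theorem smul_pow_zero (n : ℕ) (c : ℚ) (b : Bool) : (c • Xo n b) ^ (2 * n + 2) = 0 := by
  rw [_root_.smul_pow, Xo_pow_eq_zero b (by omega), smul_zero]

/-- The exponential of a multiple of a shift, as a unit. -/
noncomputable def un (n N : ℕ) (b : Bool) : (Module.End ℚ V)ˣ where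
  val := ex ℚ (2 * n + 2) ((N : ℚ) • Xo n b)
  inv := ex ℚ (2 * n + 2) (-((N : ℚ) • Xo n b))
  val_inv := ex_mul_neg (un_rat _) (by omega) (smul_pow_zero n _ b)
  inv_val := ex_neg_mul (un_rat _) (by omega) (smul_pow_zero n _ b)

/-- The representation of the free group. -/
noncomputable def rho (n N : ℕ) : FreeGroup Bool →* (Module.End ℚ V)ˣ := FreeGroup.lift (un n N)

theorem rho_isL (n N : ℕ) (g : FreeGroup Bool) :
    ∃ l, IsL (Xo n) (N * ((pz g).toAdd.1 : ℚ)) (N * ((pz g).toAdd.2 : ℚ)) l ∧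
      (rho n N g : Module.End ℚ V) = ex ℚ (2 * n + 2) l := by
  induction g using FreeGroup.induction_on with
  | C1 => exact ⟨0, ⟨0, Submodule.zero_mem _, by simp⟩, by simp [ex_zero]⟩
  | of b =>
    refine ⟨(N : ℚ) • Xo n b, ⟨0, Submodule.zero_mem _, ?_⟩, by simp [rho, un]⟩
    cases b <;> simp [pz]
  | inv_of b _ =>
    refine ⟨-((N : ℚ) • Xo n b), ⟨0, Submodule.zero_mem _, ?_⟩, by simp [rho, un]⟩
    cases b <;> simp [pz]
  | mul g h hg hh =>
    obtain ⟨l, hl, e⟩ := hg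
    obtain ⟨l', hl', e'⟩ := hh
    obtain ⟨z, hz, ez⟩ := IsL.ex_mul (filt_FF n) (Xo_mem_FF n) (T := 2 * n) (FF_bot n)
      (by omega) hl hl'
    refine ⟨z, ?_, by rw [map_mul, Units.val_mul, e, e', ez]⟩
    simpa [mul_add] using hz

/-- Supported integer valued functions. -/
def La (n : ℕ) : AddSubgroup V where
  carrier := {φ | φ ∈ Sup n ∧ ∀ u, ∃ z : ℤ, φ u = z}
  zero_mem' := ⟨Submodule.zero_mem _, fun _ => ⟨0, by simp⟩⟩
  add_mem' := fun h h' => ⟨Submodule.add_mem _ h.1 h'.1, fun u => by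
    obtain ⟨z, hz⟩ := h.2 u
    obtain ⟨z', hz'⟩ := h'.2 u
    exact ⟨z + z', by simp [hz, hz']⟩⟩
  neg_mem' := fun h => ⟨Submodule.neg_mem _ h.1, fun u => by
    obtain ⟨z, hz⟩ := h.2 u
    exact ⟨-z, by simp [hz]⟩⟩

theorem Xo_mem_La {n : ℕ} (b : Bool) {φ : V} (h : φ ∈ La n) : Xo n b φ ∈ La n :=
  ⟨Xo_mem_Sup n b φ, fun u => by
    rw [Xo_apply]
    split_ifs
    · exact h.2 _
    · exact ⟨0, by simp⟩⟩

theorem Xo_pow_mem_La {n : ℕ} (b : Bool) (j : ℕ) {φ : V} (h : φ ∈ La n) :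
    (Xo n b ^ j) φ ∈ La n := by
  induction j with
  | zero => exact h
  | succ j ih => rw [pow_succ', Module.End.mul_apply]; exact Xo_mem_La b ih

theorem fi_rat (j : ℕ) : fi ℚ j = ((j.factorial : ℕ) : ℚ)⁻¹ := Ring.inverse_eq_inv _

theorem ex_mem_La {n N : ℕ} (hN : ∀ j ≤ n, j.factorial ∣ N ^ j) (s : ℤ) (b : Bool) {φ : V}
    (h : φ ∈ La n) : ex ℚ (2 * n + 2) (((s : ℚ) * N) • Xo n b) φ ∈ La n := by
  rw [ex, LinearMap.sum_apply]
  refine AddSubgroup.sum_mem _ fun j _ => ?_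
  rcases le_or_gt j n with hj | hj
  · obtain ⟨c, hc⟩ := hN j hj
    have h0 : ((j.factorial : ℕ) : ℚ) ≠ 0 := Nat.cast_ne_zero.2 j.factorial_ne_zero
    have h1 : fi ℚ j * ((s : ℚ) * N) ^ j = ((s ^ j * c : ℤ) : ℚ) := by
      have : (N : ℚ) ^ j = (j.factorial : ℕ) * c := by exact_mod_cast hc
      rw [fi_rat, mul_pow, this]; push_cast; field_simp
    rw [_root_.smul_pow, smul_smul, h1, LinearMap.smul_apply, Int.cast_smul_eq_zsmul]
    exact AddSubgroup.zsmul_mem _ (Xo_pow_mem_La b j h) _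
  · rw [_root_.smul_pow, Xo_pow_eq_zero b hj, smul_zero, smul_zero]
    exact AddSubgroup.zero_mem _

theorem rho_mem_La {n N : ℕ} (hN : ∀ j ≤ n, j.factorial ∣ N ^ j) (g : FreeGroup Bool) {φ : V}
    (h : φ ∈ La n) : (rho n N g : Module.End ℚ V) φ ∈ La n := by
  induction g using FreeGroup.induction_on generalizing φ with
  | C1 => simpa using h
  | of b => simpa [rho, un] using ex_mem_La hN 1 b h
  | inv_of b _ =>
    have := ex_mem_La hN (-1) b h
    have e : (((-1 : ℤ) : ℚ) * N) • Xo n b = -((N : ℚ) • Xo n b) :=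
      LinearMap.ext fun ψ => by simp
    rw [e] at this
    simpa [rho, un] using this
  | mul g g' hg hg' => rw [map_mul, Units.val_mul, Module.End.mul_apply]; exact hg (hg' h)

theorem num_cast {n : ℕ} {φ : V} (h : φ ∈ La n) (u : List Bool) : ((φ u).num : ℚ) = φ u := by
  obtain ⟨z, hz⟩ := h.2 u
  rw [hz, Rat.num_intCast]

theorem sym_of_chk {n N : ℕ} (hn : 1 ≤ n) (hN : ∀ j ≤ n, j.factorial ∣ N ^ j) {K κ : ℤ}
    (hκ : κ * (n.factorial : ℕ) ^ 2 = K * (N : ℤ) ^ (2 * n)) {f : Tr}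
    (hs : Tr.sc f n n = true) (hc : chk n (words n) K f = true) : Sym n κ := by
  have hf : Tr.den f ∈ La n :=
    ⟨fun u hu => by rw [Tr.den, Tr.sc_sound f n n hs u hu, Int.cast_zero], fun u => ⟨_, rfl⟩⟩
  refine ⟨fun g => ((rho n N g : Module.End ℚ V) (Tr.den f) []).num, fun h g => ?_, fun p hp => ?_⟩
  · obtain ⟨η, hη, eη⟩ := rho_isL n N h
    obtain ⟨l, hl, el⟩ := rho_isL n N g
    have hst := hl.star hn hs hc
    refine ⟨∑ j ∈ Finset.range (n + 1),
      monomial j (fi ℚ j * ex ℚ (2 * n + 2) η ((l ^ j) (Tr.den f)) []), ?_, ?_, fun k => ?_⟩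
    · refine natDegree_sum_le_of_forall_le _ _ fun j hj => (natDegree_monomial_le _).trans ?_
      exact Nat.lt_succ_iff.1 (Finset.mem_range.1 hj)
    · rw [finsetSum_coeff, Finset.sum_eq_single n, coeff_monomial, if_pos rfl, hst, map_smul,
        Pi.smul_apply, hη.ex_psi, fi_rat, smul_eq_mul]
      · have h0 : ((n.factorial : ℕ) : ℚ) ≠ 0 := Nat.cast_ne_zero.2 n.factorial_ne_zero
        have h1 : (κ : ℚ) * ((n.factorial : ℕ) : ℚ) ^ 2 = K * (N : ℚ) ^ (2 * n) := by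
          exact_mod_cast hκ
        have h2 : (N : ℚ) * ((pz h).toAdd.1 : ℚ) * (N * ((pz g).toAdd.2 : ℚ)) -
            N * ((pz h).toAdd.2 : ℚ) * (N * ((pz g).toAdd.1 : ℚ)) =
            (N : ℚ) ^ 2 * ((Dl h g : ℤ) : ℚ) := by
          rw [Dl]; push_cast; ring
        rw [h2, mul_pow, ← pow_mul]
        push_cast
        field_simp
        linear_combination (-((Dl h g : ℤ) : ℚ) ^ n) * h1
      · intro j _ hj; rw [coeff_monomial, if_neg hj]
      · intro h'; exact absurd (Finset.mem_range.2 (by omega)) h'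
    · rw [num_cast (rho_mem_La hN _ hf), map_mul, map_pow, Units.val_mul, Units.val_pow_eq_pow_val,
        eη, el, ex_pow (filt_FF n) (T := 2 * n) (FF_bot n) (by omega)
          (hl.mem_F (filt_FF n) (Xo_mem_FF n)), Module.End.mul_apply, eval_finsetSum]
      conv_lhs => rw [ex.eq_1 ℚ (2 * n + 2) ((k : ℚ) • l)]
      rw [LinearMap.sum_apply, map_sum, Finset.sum_apply]
      symm
      refine (Finset.sum_congr rfl fun j _ => ?_).trans
        (Finset.sum_subset (Finset.range_subset_range.2 (by omega)) fun j _ hj => ?_)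
      · rw [eval_monomial, _root_.smul_pow, smul_smul, LinearMap.smul_apply, map_smul,
          Pi.smul_apply, smul_eq_mul]
        ring
      · obtain ⟨i, rfl⟩ : ∃ i, j = i + 1 + n := ⟨j - n - 1, by simp at hj; omega⟩
        rw [_root_.smul_pow, smul_smul, LinearMap.smul_apply, pow_add l, Module.End.mul_apply, hst,
          map_smul (l ^ (i + 1)), hl.pow_psi _ _ le_rfl, mul_comm ((N : ℚ) * _) (N * _), sub_self]
        simp
  · have : NeZero p := ⟨hp.ne'⟩
    refine ⟨{u : List Bool // Bd n u} → ZMod p, inferInstance,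
      fun g u => (((rho n N g : Module.End ℚ V) (Tr.den f) u.1).num : ZMod p),
      fun g g' e u => ?_⟩
    have h1 := rho_mem_La hN g hf
    have h2 := rho_mem_La hN g' hf
    simp only [map_mul, Units.val_mul, Module.End.mul_apply]
    beta_reduce at e
    generalize (rho n N g : Module.End ℚ V) (Tr.den f) = φ at e h1
    generalize (rho n N g' : Module.End ℚ V) (Tr.den f) = φ' at e h2
    have h0 : (p : ℚ) ≠ 0 := Nat.cast_ne_zero.2 hp.ne'
    have h3 : (p : ℚ)⁻¹ • (φ - φ') ∈ La n := by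
      refine ⟨Submodule.smul_mem _ _ (Submodule.sub_mem _ h1.1 h2.1), fun v => ?_⟩
      by_cases hv : Bd n v
      · obtain ⟨c, hc⟩ := (ZMod.intCast_eq_intCast_iff_dvd_sub _ _ _).1 (congrFun e ⟨v, hv⟩).symm
        refine ⟨c, ?_⟩
        have : ((φ v).num : ℚ) - (φ' v).num = p * c := by exact_mod_cast hc
        rw [num_cast h1, num_cast h2] at this
        rw [Pi.smul_apply, Pi.sub_apply, this, smul_eq_mul]; field_simp
      · exact ⟨0, by simp [h1.1 v hv, h2.1 v hv]⟩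
    obtain ⟨c, hc⟩ := (rho_mem_La hN u h3).2 []
    rw [map_smul, map_sub, Pi.smul_apply, Pi.sub_apply, ← num_cast (rho_mem_La hN u h1),
      ← num_cast (rho_mem_La hN u h2), smul_eq_mul, inv_mul_eq_iff_eq_mul₀ h0] at hc
    exact ((ZMod.intCast_eq_intCast_iff_dvd_sub _ _ _).2 ⟨c, by exact_mod_cast hc⟩).symm

theorem sym_four : Sym 4 (2 ^ 3 * 3 ^ 7) :=
  sym_of_chk (N := 6) (by norm_num) (by decide) (by norm_num [Nat.factorial]) sc4 chk4

theorem sym_six : Sym 6 (2 ^ 9 * 3 ^ 12 * 5 ^ 14) :=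
  sym_of_chk (N := 30) (by norm_num) (by decide) (by norm_num [Nat.factorial]) sc6 chk6

end Pool.Agent.Lib.MP_6d9b00_al.Hu
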